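import Pool.Agent.Lib.UNG.Stat
import Pool.Agent.Lib.UNIT.Basic

/-!
# UNG: the endomorphisms `J_γ` on tensors
-/

set_option autoImplicit false
set_option linter.unusedSectionVars false

open scoped TensorProduct ComplexConjugate
open Complex Pool.Agent.HCM Pool.Agent.RAT Pool.Agent.UNIT

namespace Pool.Agent.UNG

noncomputable section

section emb

variable {F Γ : Type} [Field F] [Group Γ] [MulSemiringAction Γ F]

@[simp] theorem emb_apply (τ : F →+* ℂ) (γ : Γ) (x : F) : emb τ γ x = τ (γ • x) := rfl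

@[simp] theorem emb_one (τ : F →+* ℂ) : emb τ (1 : Γ) = τ := by
  ext x
  simp

theorem emb_mul (τ : F →+* ℂ) (γ δ : Γ) : emb τ (γ * δ) = emb (emb τ γ) δ := by
  ext x
  simp [mul_smul]

@[simp] theorem emb_inv_emb (τ : F →+* ℂ) (γ : Γ) : emb (emb τ γ) γ⁻¹ = τ := by
  rw [← emb_mul, mul_inv_cancel, emb_one]

@[simp] theorem emb_emb_inv (τ : F →+* ℂ) (γ : Γ) : emb (emb τ γ⁻¹) γ = τ := by
  rw [← emb_mul, inv_mul_cancel, emb_one]

theorem emb_cj (τ : F →+* ℂ) (γ : Γ) : emb (cj τ) γ = cj (emb τ γ) := rfl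

theorem emb_injective [FaithfulSMul Γ F] (τ : F →+* ℂ) {γ δ : Γ} (h : emb τ γ = emb τ δ) :
    γ = δ := by
  refine FaithfulSMul.eq_of_smul_eq_smul (α := F) fun x => ?_
  exact τ.injective (RingHom.congr_fun h x)

end emb

variable {κ : Type} {K G Γ : κ → Type} [∀ k, Field (K k)] [∀ k, Group (Γ k)]
  [∀ k, MulSemiringAction (Γ k) (K k)] [∀ k, MulAction (Γ k) (G k)] {T : Type} [Fintype T]

@[simp] theorem jm_mk (s : ∀ k, Γ k) (k : κ) (g : G k) (τ : K k →+* ℂ) :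
    jm s (⟨⟨k, g⟩, τ⟩ : LU K G) = ⟨⟨k, (s k)⁻¹ • g⟩, emb τ (s k)⟩ := rfl

@[simp] theorem jv_mk (d : ∀ k, Γ k → G k → K k) (s : ∀ k, Γ k) (k : κ) (g : G k)
    (τ : K k →+* ℂ) : jv d s (⟨⟨k, g⟩, τ⟩ : LU K G) = τ (d k (s k) ((s k)⁻¹ • g)) := rfl

omit [∀ k, Group (Γ k)] [∀ k, MulSemiringAction (Γ k) (K k)] [∀ k, MulAction (Γ k) (G k)] in
theorem lu_ext {k : κ} {g g' : G k} {τ τ' : K k →+* ℂ} (h1 : g = g') (h2 : τ = τ') :
    (⟨⟨k, g⟩, τ⟩ : LU K G) = ⟨⟨k, g'⟩, τ'⟩ := by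
  subst h1
  subst h2
  rfl

theorem jm_jm (s r : ∀ k, Γ k) (y : LU K G) : jm r (jm s y) = jm (fun k => s k * r k) y := by
  obtain ⟨⟨k, g⟩, τ⟩ := y
  have h1 : (r k)⁻¹ • (s k)⁻¹ • g = (s k * r k)⁻¹ • g := by rw [mul_inv_rev, mul_smul]
  exact lu_ext h1 (emb_mul τ (s k) (r k)).symm

@[simp] theorem jm_one (y : LU K G) : jm (fun k => (1 : Γ k)) y = y := by
  obtain ⟨⟨k, g⟩, τ⟩ := y
  have h1 : (1 : Γ k)⁻¹ • g = g := by rw [inv_one, one_smul]
  exact lu_ext h1 (emb_one τ)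

@[simp] theorem jm_inv_jm (s : ∀ k, Γ k) (y : LU K G) : jm (fun k => (s k)⁻¹) (jm s y) = y := by
  rw [jm_jm]
  simp

@[simp] theorem jm_jm_inv (s : ∀ k, Γ k) (y : LU K G) : jm s (jm (fun k => (s k)⁻¹) y) = y := by
  rw [jm_jm]
  simp

theorem jv_ne {d : ∀ k, Γ k → G k → K k} (hd : ∀ k γ g, d k γ g ≠ 0) (s : ∀ k, Γ k)
    (y : LU K G) : jv d s y ≠ 0 := by
  obtain ⟨⟨k, g⟩, τ⟩ := y
  rw [jv_mk, map_ne_zero]
  exact hd _ _ _

/-- The word `t` with `J_γ`, `γ = S a k`, applied to the letters. -/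
def mw (S : T → ∀ k, Γ k) (t : T → LU K G) : T → LU K G := fun a => jm (S a) (t a)

@[simp] theorem mw_apply (S : T → ∀ k, Γ k) (t : T → LU K G) (a : T) :
    mw S t a = jm (S a) (t a) := rfl

variable (d : ∀ k, Γ k → G k → K k)

theorem mvJ_apply (S : T → ∀ k, Γ k) (u : (T → LU K G) → ℂ) (t : T → LU K G) :
    mvJ d S u t = (∏ a, jv d (S a) (t a)) * u (mw S t) := rfl

/-- `mvJ` as a linear map. -/
def mvL (S : T → ∀ k, Γ k) : ((T → LU K G) → ℂ) →ₗ[ℂ] ((T → LU K G) → ℂ) where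
  toFun := mvJ d S
  map_add' u v := by
    funext t
    simp only [mvJ, Pi.add_apply, mul_add]
  map_smul' c u := by
    funext t
    simp only [mvJ, Pi.smul_apply, smul_eq_mul, RingHom.id_apply]
    ring

@[simp] theorem mvL_apply (S : T → ∀ k, Γ k) (u : (T → LU K G) → ℂ) : mvL d S u = mvJ d S u := rfl

theorem mvJ_one (hd : ∀ k g, d k 1 g = 1) (u : (T → LU K G) → ℂ) :
    mvJ d (fun _ k => (1 : Γ k)) u = u := by
  funext t
  have h1 : ∀ a, jv d (fun k => (1 : Γ k)) (t a) = 1 := by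
    intro a
    unfold jv
    rw [hd, map_one]
  simp only [mvJ, h1, Finset.prod_const_one, one_mul, jm_one]

theorem mvJ_smul_rat (S : T → ∀ k, Γ k) (r : ℚ) (u : (T → LU K G) → ℂ) :
    mvJ d S (r • u) = r • mvJ d S u := by
  funext t
  simp only [mvJ, Pi.smul_apply, Algebra.smul_def]
  ring

theorem mvJ_add (S : T → ∀ k, Γ k) (u v : (T → LU K G) → ℂ) :
    mvJ d S (u + v) = mvJ d S u + mvJ d S v := (mvL d S).map_add u v

theorem mvJ_zero (S : T → ∀ k, Γ k) : mvJ d S (0 : (T → LU K G) → ℂ) = 0 := (mvL d S).map_zero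

/-- `mvJ` and complex linear combinations. -/
theorem mvJ_span {A B : Set ((T → LU K G) → ℂ)} (S : T → ∀ k, Γ k)
    (hAB : ∀ w ∈ A, mvJ d S w ∈ Submodule.span ℂ B) {u : (T → LU K G) → ℂ}
    (hu : u ∈ Submodule.span ℂ A) : mvJ d S u ∈ Submodule.span ℂ B := by
  induction hu using Submodule.span_induction with
  | mem w hw => exact hAB w hw
  | zero =>
    rw [mvJ_zero]
    exact Submodule.zero_mem _
  | add v w _ _ hv hw =>
    rw [mvJ_add]
    exact Submodule.add_mem _ hv hw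
  | smul c v _ hv =>
    have h1 : mvJ d S (c • v) = c • mvJ d S v := (mvL d S).map_smul c v
    rw [h1]
    exact Submodule.smul_mem _ _ hv

end

end Pool.Agent.UNG
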