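import Pool.Agent.Lib.UNG.Rows
import Pool.Agent.Lib.UNQ.QC

/-!
# UNG, row YC: the rational Lie algebras and the root vectors (with lemmas of helper36)
-/

set_option autoImplicit false
set_option linter.unusedSectionVars false

open scoped TensorProduct ComplexConjugate
open Complex Pool.Agent.HCM Pool.Agent.RAT Pool.Agent.UNIT

namespace Pool.Agent.UNG

noncomputable section

namespace YCx

section one

variable {F A Γ : Type} [Field F] [Group Γ] [MulSemiringAction Γ F] [MulAction Γ A]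

/-- The matrix `J_γ X J_γ⁻¹`. -/
def JJ (d : Γ → A → F) (γ : Γ) (X : Matrix A A F) : Matrix A A F :=
  fun p q => d γ (γ⁻¹ • p) / d γ (γ⁻¹ • q) * γ • X (γ⁻¹ • p) (γ⁻¹ • q)

/-- The adjoint of the matrix `X` with respect to the hermitian form. -/
def adj (h : A → F) (c : F → F) (X : Matrix A A F) : Matrix A A F := fun p q => h q / h p * c (X q p)

theorem smul_quot (γ : Γ) (x y : F) : γ • (x / y) = γ • x / γ • y :=
  map_div₀ (MulSemiringAction.toRingHom Γ F γ) x y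

theorem JJ_comm {d : Γ → A → F} (h0 : ∀ γ g, d γ g ≠ 0)
    (h1 : ∀ γ δ : Γ, ∃ c : F, ∀ g, d γ (δ • g) * γ • d δ g = c * d (γ * δ) g) (δ γ : Γ)
    (X : Matrix A A F) (x y : A) :
    d δ y * JJ d (δ * γ) X (δ • x) (δ • y) = d δ x * δ • JJ d γ X x y := by
  obtain ⟨c, hc⟩ := h1 δ γ
  have e : ∀ z : A, (δ * γ)⁻¹ • δ • z = γ⁻¹ • z := by
    intro z
    rw [mul_inv_rev, mul_smul, inv_smul_smul]
  have hx := hc (γ⁻¹ • x)
  have hy := hc (γ⁻¹ • y)
  rw [smul_inv_smul] at hx hy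
  have hc0 : c ≠ 0 := by
    intro h2
    rw [h2, zero_mul] at hx
    rcases mul_eq_zero.1 hx with h3 | h3
    · exact h0 _ _ h3
    · rw [smul_eq_zero_iff_eq] at h3
      exact h0 _ _ h3
  have n1 : δ • d γ (γ⁻¹ • x) ≠ 0 := by rw [Ne, smul_eq_zero_iff_eq]; exact h0 _ _
  have n2 : δ • d γ (γ⁻¹ • y) ≠ 0 := by rw [Ne, smul_eq_zero_iff_eq]; exact h0 _ _
  have n3 := h0 (δ * γ) (γ⁻¹ • x)
  have n4 := h0 (δ * γ) (γ⁻¹ • y)
  have n5 := h0 δ x
  have n6 := h0 δ y
  unfold JJ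
  rw [e, e, smul_mul', smul_quot, mul_smul]
  have hx' : d (δ * γ) (γ⁻¹ • x) = d δ x * δ • d γ (γ⁻¹ • x) / c := by
    rw [hx]; field_simp
  have hy' : d (δ * γ) (γ⁻¹ • y) = d δ y * δ • d γ (γ⁻¹ • y) / c := by
    rw [hy]; field_simp
  rw [hx', hy']
  field_simp

theorem adj_JJ {d : Γ → A → F} (h0 : ∀ γ g, d γ g ≠ 0) {h : A → F} (hh : ∀ g, h g ≠ 0)
    (c : F →+* F) (hc : ∀ (γ : Γ) (x : F), c (γ • x) = γ • c x)
    (h1 : ∀ γ : Γ, ∃ m : F, ∀ g, h (γ • g) * (d γ g * c (d γ g)) = m * γ • h g) (γ : Γ)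
    (X : Matrix A A F) : adj h c (JJ d γ X) = JJ d γ (adj h c X) := by
  obtain ⟨m, hm⟩ := h1 γ
  funext p q
  have hp := hm (γ⁻¹ • p)
  have hq := hm (γ⁻¹ • q)
  rw [smul_inv_smul] at hp hq
  have n1 := h0 γ (γ⁻¹ • p)
  have n2 := h0 γ (γ⁻¹ • q)
  have n3 : c (d γ (γ⁻¹ • p)) ≠ 0 := (map_ne_zero c).2 n1
  have n4 : c (d γ (γ⁻¹ • q)) ≠ 0 := (map_ne_zero c).2 n2
  have n5 : γ • h (γ⁻¹ • p) ≠ 0 := by rw [Ne, smul_eq_zero_iff_eq]; exact hh _
  have n6 : γ • h (γ⁻¹ • q) ≠ 0 := by rw [Ne, smul_eq_zero_iff_eq]; exact hh _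
  have n7 := hh p
  have n8 := hh q
  have n9 : m ≠ 0 := by
    intro h2
    rw [h2, zero_mul] at hp
    exact mul_ne_zero n7 (mul_ne_zero n1 n3) hp
  unfold adj JJ
  rw [map_mul, map_div₀, hc, smul_mul', smul_quot]
  have hp' : h p = m * γ • h (γ⁻¹ • p) / (d γ (γ⁻¹ • p) * c (d γ (γ⁻¹ • p))) := by
    rw [eq_div_iff (mul_ne_zero n1 n3), hp]
  have hq' : h q = m * γ • h (γ⁻¹ • q) / (d γ (γ⁻¹ • q) * c (d γ (γ⁻¹ • q))) := by
    rw [eq_div_iff (mul_ne_zero n2 n4), hq]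
  rw [hp', hq']
  field_simp

theorem JJ_single [DecidableEq A] (d : Γ → A → F) (γ : Γ) (a b : A) (l : F) :
    JJ d γ (Matrix.single a b l) =
      Matrix.single (γ • a) (γ • b) (d γ a / d γ b * γ • l) := by
  funext p q
  unfold JJ
  rw [Matrix.single_apply, Matrix.single_apply]
  by_cases h1 : a = γ⁻¹ • p ∧ b = γ⁻¹ • q
  · have h2 : γ • a = p ∧ γ • b = q := by
      rw [h1.1, h1.2, smul_inv_smul, smul_inv_smul]
      exact ⟨rfl, rfl⟩
    rw [if_pos h1, if_pos h2, ← h1.1, ← h1.2]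
  · have h2 : ¬ (γ • a = p ∧ γ • b = q) := by
      rintro ⟨h3, h4⟩
      apply h1
      rw [← h3, ← h4, inv_smul_smul, inv_smul_smul]
      exact ⟨rfl, rfl⟩
    rw [if_neg h1, if_neg h2, smul_zero, mul_zero]

theorem adj_single [DecidableEq A] (h : A → F) (c : F →+* F) (a b : A) (l : F) :
    adj h c (Matrix.single a b l) = Matrix.single b a (h a / h b * c l) := by
  funext p q
  unfold adj
  rw [Matrix.single_apply, Matrix.single_apply]
  by_cases h1 : a = q ∧ b = p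
  · rw [if_pos h1, if_pos ⟨h1.2, h1.1⟩, ← h1.1, ← h1.2]
  · rw [if_neg h1, if_neg (fun h2 => h1 ⟨h2.2, h2.1⟩), map_zero, mul_zero]

theorem adj_adj {h : A → F} (hh : ∀ g, h g ≠ 0) (c : F →+* F) (hcc : ∀ x, c (c x) = x)
    (hch : ∀ g, c (h g) = h g) (X : Matrix A A F) : adj h c (adj h c X) = X := by
  funext p q
  have n7 := hh p
  have n8 := hh q
  unfold adj
  rw [map_mul, map_div₀, hch, hch, hcc]
  field_simp

theorem JJ_neg (d : Γ → A → F) (γ : Γ) (X : Matrix A A F) : JJ d γ (-X) = -JJ d γ X := by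
  funext p q
  unfold JJ
  rw [Matrix.neg_apply, Matrix.neg_apply, smul_neg, mul_neg]

theorem JJ_sub (d : Γ → A → F) (γ : Γ) (X Y : Matrix A A F) :
    JJ d γ (X - Y) = JJ d γ X - JJ d γ Y := by
  funext p q
  unfold JJ
  rw [Matrix.sub_apply, Matrix.sub_apply, smul_sub, mul_sub]

theorem adj_sub (h : A → F) (c : F →+* F) (X Y : Matrix A A F) :
    adj h c (X - Y) = adj h c X - adj h c Y := by
  funext p q
  unfold adj
  rw [Matrix.sub_apply, Matrix.sub_apply, map_sub, mul_sub]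

theorem adj_sum {ι : Type} [Fintype ι] (h : A → F) (c : F →+* F) (X : ι → Matrix A A F) :
    adj h c (∑ i, X i) = ∑ i, adj h c (X i) := by
  funext p q
  unfold adj
  rw [Matrix.sum_apply, Matrix.sum_apply, map_sum, Finset.mul_sum]

end one

variable {κ : Type} {K G Γ : κ → Type} [∀ k, Field (K k)] [∀ k, Group (Γ k)]
  [∀ k, MulSemiringAction (Γ k) (K k)] [∀ k, MulAction (Γ k) (G k)]

theorem isSUG_upd [∀ k, Fintype (G k)] (h : ∀ k, G k → K k)
    (d : ∀ k, Γ k → G k → K k) (k : κ) (Y : Matrix (G k) (G k) (K k)) (h1 : Y.trace = 0)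
    (h2 : ∀ (τ : K k →+* ℂ) (x y : G k),
      τ (h k x * Y x y) + conj (τ (Y y x)) * τ (h k y) = 0)
    (h3 : ∀ (γ : Γ k) (x y : G k), d k γ y * Y (γ • x) (γ • y) = d k γ x * γ • Y x y) :
    IsSUG h d (UNQ.UCx.upd k Y) := by
  refine ⟨fun k' => ?_, fun k' => ?_⟩
  · by_cases hk : k' = k
    · subst hk
      rw [UNQ.UCx.upd_self]
      exact ⟨h1, h2⟩
    · rw [UNQ.UCx.upd_ne _ _ hk]
      exact ⟨Matrix.trace_zero _ _, fun τ a b => by simp⟩
  · by_cases hk : k' = k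
    · subst hk
      rw [UNQ.UCx.upd_self]
      exact h3
    · rw [UNQ.UCx.upd_ne _ _ hk]
      intro τ a b
      simp

end YCx

open YCx

/-- **Row YC.** -/
theorem yc : YC := by
  classical
  intro κ _ _ K G Γ _ _ _ _ _ _ _ _ _ h hh d hd T _ _ u hu k a b τ hab t
  let c : K k →+* K k := (NumberField.IsCMField.complexConj (K k) : K k →+* K k)
  have hc : ∀ (τ : K k →+* ℂ) (x : K k), τ (c x) = conj (τ x) := by
    intro τ x
    exact NumberField.IsCMField.complexEmbedding_complexConj (K k) τ x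
  have hcc : ∀ x, c (c x) = x := fun x => τ.injective (by rw [hc, hc, Complex.conj_conj])
  have hcγ : ∀ (γ : Γ k) (x : K k), c (γ • x) = γ • c x := by
    intro γ x
    apply τ.injective
    rw [hc]
    exact (hc (emb τ γ) x).symm
  have hch : ∀ g, c (h k g) = h k g := by
    intro g
    apply τ.injective
    rw [hc]
    exact Complex.conj_eq_iff_im.2 ((hh k g).2 τ)
  have hh0 : ∀ g, h k g ≠ 0 := fun g => (hh k g).1
  obtain ⟨hd1, hd0, hdm, hds⟩ := hd k
  have hds' : ∀ γ : Γ k, ∃ m : K k, ∀ g,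
      h k (γ • g) * (d k γ g * c (d k γ g)) = m * γ • h k g := by
    intro γ
    obtain ⟨m, hm⟩ := hds γ
    refine ⟨m, fun g => τ.injective ?_⟩
    rw [← hm g τ, map_mul, map_mul, hc]
  refine UNIT.UCx.coeff_eq_zero (fun τ => rootG h d k a b τ u t) ?_ τ
  intro l
  -- the rational matrix
  let Z : Matrix (G k) (G k) (K k) :=
    Matrix.single a b l - adj (h k) c (Matrix.single a b l)
  let Y : Matrix (G k) (G k) (K k) := ∑ γ : Γ k, JJ (d k) γ Z
  let lg : Γ k → K k := fun γ => d k γ a / d k γ b * γ • l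
  have hadjZ : adj (h k) c Z = -Z := by
    change adj (h k) c (Matrix.single a b l - adj (h k) c (Matrix.single a b l)) = _
    rw [adj_sub, adj_adj hh0 c hcc hch, neg_sub]
  have hadjY : adj (h k) c Y = -Y := by
    change adj (h k) c (∑ γ : Γ k, JJ (d k) γ Z) = -∑ γ : Γ k, JJ (d k) γ Z
    rw [adj_sum, ← Finset.sum_neg_distrib]
    refine Finset.sum_congr rfl fun γ _ => ?_
    rw [adj_JJ hd0 hh0 c hcγ hds', hadjZ, JJ_neg]
  have hYeq : ∀ γ : Γ k, JJ (d k) γ Z = Matrix.single (γ • a) (γ • b) (lg γ) -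
      Matrix.single (γ • b) (γ • a) (h k (γ • a) / h k (γ • b) * c (lg γ)) := by
    intro γ
    change JJ (d k) γ (Matrix.single a b l - adj (h k) c (Matrix.single a b l)) = _
    rw [JJ_sub, ← adj_JJ hd0 hh0 c hcγ hds', JJ_single, adj_single]
  have hX : IsSUG h d (UNQ.UCx.upd k Y) := by
    apply isSUG_upd
    · change Matrix.trace (∑ γ : Γ k, JJ (d k) γ Z) = 0
      rw [Matrix.trace_sum]
      by_cases h1 : a = b
      · subst h1
        obtain ⟨γ₀, hγ₀⟩ : HasConj K Γ k := hab.resolve_left fun h2 => h2 rfl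
        have h2 : ∀ γ : Γ k, Matrix.trace (JJ (d k) γ Z) = γ • l - (γ₀ * γ) • l := by
          intro γ
          have e1 : lg γ = γ • l := by
            change d k γ a / d k γ a * γ • l = _
            rw [div_self (hd0 _ _), one_mul]
          have e2 : c (γ • l) = (γ₀ * γ) • l := by
            apply τ.injective
            rw [hc, mul_smul]
            exact (RingHom.congr_fun (hγ₀ τ) (γ • l)).symm
          rw [hYeq, Matrix.trace_sub, Matrix.trace_single_eq_same, Matrix.trace_single_eq_same,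
            e1, e2, div_self (hh0 _), one_mul]
        rw [Finset.sum_congr rfl fun γ _ => h2 γ, Finset.sum_sub_distrib, sub_eq_zero]
        exact (Equiv.sum_comp (Equiv.mulLeft γ₀) fun γ : Γ k => γ • l).symm
      · refine Finset.sum_eq_zero fun γ _ => ?_
        have h2 : γ • a ≠ γ • b := fun h3 => h1 (MulAction.injective γ h3)
        rw [hYeq, Matrix.trace_sub, Matrix.trace_single_eq_of_ne _ _ _ h2,
          Matrix.trace_single_eq_of_ne _ _ _ h2.symm, sub_zero]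
    · intro τ' x y
      have h1 := congrFun (congrFun hadjY x) y
      rw [Matrix.neg_apply] at h1
      have h2 : h k y / h k x * c (Y y x) = -Y x y := h1
      have h3 : h k x * Y x y + c (Y y x) * h k y = 0 := by
        have n1 := hh0 x
        field_simp at h2
        linear_combination h2
      rw [← hc, ← map_mul, ← map_add, h3, map_zero]
    · intro δ x y
      have h1 : Y (δ • x) (δ • y) = ∑ γ : Γ k, JJ (d k) (δ * γ) Z (δ • x) (δ • y) := by
        change (∑ γ : Γ k, JJ (d k) γ Z) (δ • x) (δ • y) = _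
        rw [Matrix.sum_apply]
        exact (Equiv.sum_comp (Equiv.mulLeft δ)
          fun γ : Γ k => JJ (d k) γ Z (δ • x) (δ • y)).symm
      have h2 : Y x y = ∑ γ : Γ k, JJ (d k) γ Z x y := Matrix.sum_apply _ _ _ _
      rw [h1, h2, Finset.smul_sum, Finset.mul_sum, Finset.mul_sum]
      exact Finset.sum_congr rfl fun γ _ => JJ_comm hd0 hdm δ γ Z x y
  have h1 := congrFun (hu _ hX) t
  rw [UNQ.UCx.der_upd, Pi.zero_apply] at h1
  let D : Matrix (G k) (G k) (K k) →+ ℂ :=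
    { toFun := fun Y => ∑ g, ∑ g', ∑ τ : K k →+* ℂ, τ (Y g g') * UNQ.UCx.EE k g g' τ u t
      map_zero' := by simp
      map_add' := fun X Y => by
        simp only [Matrix.add_apply, map_add, add_mul, Finset.sum_add_distrib] }
  have hDs : ∀ (p r : G k) (x : K k), D (Matrix.single p r x) =
      ∑ τ : K k →+* ℂ, τ x * UNQ.UCx.EE k p r τ u t := fun p r x =>
    UNQ.UCx.sum_single k p r x (fun g g' τ => UNQ.UCx.EE k g g' τ u t)
  have h2 : D Y = 0 := h1
  have h3 : D Y = ∑ γ : Γ k, ∑ τ : K k →+* ℂ, τ (lg γ) *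
      root h k (γ • a) (γ • b) τ u t := by
    change D (∑ γ : Γ k, JJ (d k) γ Z) = _
    rw [map_sum]
    refine Finset.sum_congr rfl fun γ _ => ?_
    rw [hYeq, map_sub, hDs, hDs, UNQ.UCx.sum_cj (K k) (fun τ : K k →+* ℂ =>
      τ (h k (γ • a) / h k (γ • b) * c (lg γ)) * UNQ.UCx.EE k (γ • b) (γ • a) τ u t),
      ← Finset.sum_sub_distrib]
    refine Finset.sum_congr rfl fun τ' _ => ?_
    have e1 : (cj τ') (h k (γ • a) / h k (γ • b) * c (lg γ)) =
        τ' (h k (γ • a)) / τ' (h k (γ • b)) * τ' (lg γ) := by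
      change conj (τ' (h k (γ • a) / h k (γ • b) * c (lg γ))) = _
      rw [← hc, map_mul, map_div₀ c, hch, hch, hcc, map_mul, map_div₀]
    rw [e1]
    change _ = τ' (lg γ) * (UNQ.UCx.EE k (γ • a) (γ • b) τ' u t -
      τ' (h k (γ • a)) / τ' (h k (γ • b)) * UNQ.UCx.EE k (γ • b) (γ • a) (cj τ') u t)
    ring
  have h4 : ∑ τ : K k →+* ℂ, τ l * rootG h d k a b τ u t =
      ∑ γ : Γ k, ∑ τ : K k →+* ℂ, τ (lg γ) * root h k (γ • a) (γ • b) τ u t := by
    unfold rootG
    simp only [Finset.mul_sum]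
    rw [Finset.sum_comm]
    refine Finset.sum_congr rfl fun γ _ => ?_
    have e2 : Function.Bijective fun τ : K k →+* ℂ => emb τ γ⁻¹ :=
      ⟨fun x y hxy => by
        have h5 := congrArg (fun z : K k →+* ℂ => emb z γ) hxy
        simpa using h5, fun y => ⟨emb y γ, by simp⟩⟩
    refine Fintype.sum_bijective _ e2 _ _ fun τ' => ?_
    have e3 : emb τ' γ⁻¹ (lg γ) =
        emb τ' γ⁻¹ (d k γ a) / emb τ' γ⁻¹ (d k γ b) * τ' l := by
      change emb τ' γ⁻¹ (d k γ a / d k γ b * γ • l) = _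
      rw [map_mul, map_div₀, emb_apply τ' γ⁻¹ (γ • l), inv_smul_smul]
    rw [e3]
    ring
  rw [h4, ← h3, h2]


end

end Pool.Agent.UNG
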