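import Pool.Agent.Lib.UNG.Rows
import Pool.Agent.Lib.UNIT.UI

/-!
# UNG, row YI: the `J_γ` do not change the weights (after UNQ/QI of helper21)
-/

set_option autoImplicit false
set_option linter.unusedSectionVars false

open scoped TensorProduct ComplexConjugate
open Complex Pool.Agent.HCM Pool.Agent.RAT Pool.Agent.UNIT

namespace Pool.Agent.UNG

noncomputable section

namespace YIx

variable {κ : Type} {K G Γ : κ → Type} [∀ k, Field (K k)] [∀ k, NumberField (K k)]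
  [∀ k, Group (Γ k)] [∀ k, MulSemiringAction (Γ k) (K k)] [∀ k, MulAction (Γ k) (G k)]
  {E : Type} [Field E] [NumberField E] [IsGalois ℚ E]

/-- The letters moved by `J_γ` have the same weight. -/
theorem wv_emb {Φ : ∀ i : Σ k, G k, Set (K i.1 →+* ℂ)} (hΦ : IsTypeG Γ Φ)
    (j : ∀ k, K k →+* E) (τ₀ : E →+* ℂ) (g : E ≃ₐ[ℚ] E) (k : κ) (γ : Γ k) (σ : K k →+* ℂ) :
    UIx.wv Φ j τ₀ g k (emb σ γ) = UIx.wv Φ j τ₀ g k σ := by
  have h1 : UIx.lf j τ₀ k (emb σ γ) =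
      (UIx.lf j τ₀ k σ).comp (MulSemiringAction.toRingHom (Γ k) (K k) γ) := by
    apply UIx.lift_unique τ₀
    rw [← UIx.lf_spec, ← RingHom.comp_assoc, ← UIx.lf_spec]
    rfl
  unfold UIx.wv
  rw [h1]
  have h3 : {g' : G k | τ₀.comp ((g : E →+* E).comp ((UIx.lf j τ₀ k σ).comp
      (MulSemiringAction.toRingHom (Γ k) (K k) γ))) ∈ Φ ⟨k, g'⟩} =
      (fun g' : G k => γ • g') ⁻¹'
        {g' : G k | τ₀.comp ((g : E →+* E).comp (UIx.lf j τ₀ k σ)) ∈ Φ ⟨k, g'⟩} := by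
    ext g'
    exact (hΦ.2 k γ g' (τ₀.comp ((g : E →+* E).comp (UIx.lf j τ₀ k σ)))).symm
  rw [h3]
  exact Set.ncard_preimage_of_injective_subset_range (MulAction.injective γ) (by
    rw [(MulAction.surjective γ).range_eq]
    exact Set.subset_univ _)

end YIx

/-- **Row YI.** -/
theorem yi : YI := by
  intro κ _ K G Γ _ _ _ _ _ _ _ _ _ Φ hΦ e E _ _ _ j τ₀ m T _ _ S t
  rw [UIx.bal_iff Φ e j τ₀ m t, UIx.bal_iff Φ e j τ₀ m (mw S t)]
  have key : ∀ (g : E ≃ₐ[ℚ] E) (a : T), e (t a).1.1 * UIx.wv Φ j τ₀ g (t a).1.1 (t a).2 =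
      e (mw S t a).1.1 * UIx.wv Φ j τ₀ g (mw S t a).1.1 (mw S t a).2 := by
    intro g a
    change e (t a).1.1 * UIx.wv Φ j τ₀ g (t a).1.1 (t a).2 =
      e (t a).1.1 * UIx.wv Φ j τ₀ g (t a).1.1 (emb (t a).2 (S a (t a).1.1))
    rw [YIx.wv_emb hΦ]
  simp only [key]

end

end Pool.Agent.UNG
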