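import Pool.Agent.Lib.UNG.Rows

/-!
# UNG, row YJ: the `J_γ` keep `H_1(X, ℚ)^{⊗ T}` (after UNQ/QJ of helper94)
-/

set_option autoImplicit false

open scoped TensorProduct ComplexConjugate
open Complex Pool.Agent.HCM Pool.Agent.RAT Pool.Agent.UNIT

namespace Pool.Agent.UNG

noncomputable section

theorem yj : YJ := by
  intro κ _ K G Γ _ _ _ _ _ _ d T _ _ S u hu
  unfold TQ at hu
  induction hu using Submodule.span_induction with
  | mem u hu =>
    obtain ⟨x, rfl⟩ := hu
    refine Submodule.subset_span ⟨fun a i => d i.1 (S a i.1) ((S a i.1)⁻¹ • i.2) *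
      S a i.1 • x a ⟨i.1, (S a i.1)⁻¹ • i.2⟩, ?_⟩
    funext t
    rw [mvJ_apply]
    unfold tens
    rw [← Finset.prod_mul_distrib]
    refine Finset.prod_congr rfl fun a _ => ?_
    rw [map_mul]
    rfl
  | zero =>
    rw [mvJ_zero]
    exact Submodule.zero_mem _
  | add v w _ _ hv hw =>
    rw [mvJ_add]
    exact Submodule.add_mem _ hv hw
  | smul c v _ hv =>
    rw [mvJ_smul_rat]
    exact Submodule.smul_mem _ _ hv

end

end Pool.Agent.UNG
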