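import Pool.Agent.Lib.UNG.Rows

/-!
# UNG, row YL: the `J_γ` commute with the Lie algebra (after UNQ/QL of helper77)
-/

set_option autoImplicit false
set_option linter.unusedSectionVars false

open scoped TensorProduct ComplexConjugate
open Complex Pool.Agent.HCM Pool.Agent.RAT Pool.Agent.UNIT

namespace Pool.Agent.UNG

noncomputable section

namespace YLx

variable {κ : Type} {K G Γ : κ → Type} [∀ k, Field (K k)] [∀ k, Fintype (G k)]
  [∀ k, Group (Γ k)] [∀ k, MulSemiringAction (Γ k) (K k)] [∀ k, MulAction (Γ k) (G k)]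

/-- The action of `X` on the letter `y`, followed by `F`. -/
def dsum (X : ∀ k, Matrix (G k) (G k) (K k)) (y : LU K G) (F : LU K G → ℂ) : ℂ :=
  ∑ g' : G y.1.1, y.2 (X y.1.1 y.1.2 g') * F ⟨⟨y.1.1, g'⟩, y.2⟩

theorem der_dsum [Fintype κ] [∀ k, NumberField (K k)] {T : Type} [Fintype T] [DecidableEq T]
    (X : ∀ k, Matrix (G k) (G k) (K k)) (u : (T → LU K G) → ℂ) (t : T → LU K G) :
    der X u t = ∑ a, dsum X (t a) fun y' => u (Function.update t a y') := der_apply X u t

theorem core (h : ∀ k, G k → K k) (d : ∀ k, Γ k → G k → K k)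
    (X : ∀ k, Matrix (G k) (G k) (K k)) (hX : IsSUG h d X) (s : ∀ k, Γ k) (y : LU K G)
    (F : LU K G → ℂ) :
    dsum X y (fun y' => jv d s y' * F (jm s y')) = jv d s y * dsum X (jm s y) F := by
  obtain ⟨⟨k, g⟩, τ⟩ := y
  change ∑ g' : G k, τ (X k g g') * (τ (d k (s k) ((s k)⁻¹ • g')) *
      F ⟨⟨k, (s k)⁻¹ • g'⟩, emb τ (s k)⟩) =
    τ (d k (s k) ((s k)⁻¹ • g)) *
      ∑ g' : G k, emb τ (s k) (X k ((s k)⁻¹ • g) g') * F ⟨⟨k, g'⟩, emb τ (s k)⟩
  have h0 : ∑ g' : G k, emb τ (s k) (X k ((s k)⁻¹ • g) g') * F ⟨⟨k, g'⟩, emb τ (s k)⟩ =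
      ∑ g' : G k, emb τ (s k) (X k ((s k)⁻¹ • g) ((s k)⁻¹ • g')) *
        F ⟨⟨k, (s k)⁻¹ • g'⟩, emb τ (s k)⟩ :=
    (Equiv.sum_comp (MulAction.toPerm (s k)⁻¹)
      fun g' => emb τ (s k) (X k ((s k)⁻¹ • g) g') * F ⟨⟨k, g'⟩, emb τ (s k)⟩).symm
  rw [h0, Finset.mul_sum]
  refine Finset.sum_congr rfl fun g' _ => ?_
  have h1 := congrArg τ (hX.2 k (s k) ((s k)⁻¹ • g) ((s k)⁻¹ • g'))
  rw [smul_inv_smul, smul_inv_smul, map_mul, map_mul] at h1
  rw [emb_apply, ← mul_assoc, ← mul_assoc, mul_comm (τ (X k g g')), h1]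

end YLx

open YLx

theorem yl : YL := by
  intro κ _ K G Γ _ _ _ _ _ _ h d _ T _ _ S u X hX
  funext t
  rw [der_dsum, mvJ_apply, der_dsum, Finset.mul_sum]
  refine Finset.sum_congr rfl fun a _ => ?_
  rw [mw_apply, ← Finset.mul_prod_erase Finset.univ _ (Finset.mem_univ a)]
  have h2 : ∀ y' : LU K G, mvJ d S u (Function.update t a y') =
      jv d (S a) y' * ((∏ b ∈ Finset.univ.erase a, jv d (S b) (t b)) *
        u (Function.update (mw S t) a (jm (S a) y'))) := by
    intro y'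
    rw [mvJ_apply, ← Finset.mul_prod_erase Finset.univ _ (Finset.mem_univ a),
      Function.update_self]
    have h3 : ∏ b ∈ Finset.univ.erase a, jv d (S b) (Function.update t a y' b) =
        ∏ b ∈ Finset.univ.erase a, jv d (S b) (t b) := by
      refine Finset.prod_congr rfl fun b hb => ?_
      rw [Function.update_of_ne (Finset.ne_of_mem_erase hb)]
    have h4 : mw S (Function.update t a y') = Function.update (mw S t) a (jm (S a) y') := by
      funext b
      by_cases hb : b = a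
      · subst hb
        rw [mw_apply, Function.update_self, Function.update_self]
      · rw [mw_apply, Function.update_of_ne hb, Function.update_of_ne hb, mw_apply]
    rw [h3, h4, mul_assoc]
  simp only [h2]
  have h5 := core h d X hX (S a) (t a)
    fun y'' => (∏ b ∈ Finset.univ.erase a, jv d (S b) (t b)) *
      u (Function.update (mw S t) a y'')
  rw [h5, mul_assoc]
  congr 1
  unfold dsum
  rw [Finset.mul_sum]
  exact Finset.sum_congr rfl fun g _ => by ring

end

end Pool.Agent.UNG
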