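import Pool.Agent.Lib.UNG.Rows
import Pool.Agent.Lib.HCM.TateGal

/-!
# UNG, row YM: the `J_γ` commute with the torus (after UNQ/QM of helper21)
-/

set_option autoImplicit false
set_option linter.unusedSectionVars false

open scoped TensorProduct ComplexConjugate
open Complex Pool.Agent.HCM Pool.Agent.RAT Pool.Agent.UNIT

namespace Pool.Agent.UNG

noncomputable section

namespace YMx

open Classical in
/-- The action of `γ` on reflex norms. -/
theorem smul_reflex {E : Type} [Field E] [NumberField E] [IsGalois ℚ E] {F : Type} [Field F]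
    [NumberField F] {Γ : Type} [Group Γ] [MulSemiringAction Γ F] (γ : Γ)
    {S S' : Set (F →+* ℂ)} (hS : ∀ τ, τ ∈ S' ↔ emb τ γ ∈ S) {j : F →+* E} {τ₀ : E →+* ℂ} {x : E}
    {z z' : F}
    (hz : j z = ∏ g : E ≃ₐ[ℚ] E, if τ₀.comp ((g : E →+* E).comp j) ∈ S then g.symm x else 1)
    (hz' : j z' = ∏ g : E ≃ₐ[ℚ] E, if τ₀.comp ((g : E →+* E).comp j) ∈ S' then g.symm x else 1) :
    γ • z = z' := by
  obtain ⟨d, hd⟩ := exists_aut_comp j τ₀ (emb (τ₀.comp j) γ)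
  have h1 : ∀ y : F, d (j y) = j (γ • y) := by
    intro y
    apply τ₀.injective
    exact (RingHom.congr_fun hd y).symm
  have h2 : ∀ g : E ≃ₐ[ℚ] E,
      (τ₀.comp ((((g * d : E ≃ₐ[ℚ] E)) : E →+* E).comp j) ∈ S ↔
        τ₀.comp ((g : E →+* E).comp j) ∈ S') := by
    intro g
    rw [hS]
    have h3 : τ₀.comp ((((g * d : E ≃ₐ[ℚ] E)) : E →+* E).comp j) =
        emb (τ₀.comp ((g : E →+* E).comp j)) γ := by
      ext y
      change τ₀ (g (d (j y))) = τ₀ (g (j (γ • y)))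
      rw [h1 y]
    rw [h3]
  have h3 : j (γ • z) = j z' := by
    rw [← h1, hz, hz', map_prod]
    symm
    refine Fintype.prod_equiv (Equiv.mulRight d) _ _ ?_
    intro g
    change (if τ₀.comp ((g : E →+* E).comp j) ∈ S' then g.symm x else 1) =
      d (if τ₀.comp ((((g * d : E ≃ₐ[ℚ] E)) : E →+* E).comp j) ∈ S then
        (g * d : E ≃ₐ[ℚ] E).symm x else 1)
    by_cases h5 : τ₀.comp ((g : E →+* E).comp j) ∈ S'
    · rw [if_pos h5, if_pos ((h2 g).2 h5)]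
      have h6 : (g * d : E ≃ₐ[ℚ] E).symm x = d.symm (g.symm x) := rfl
      rw [h6, AlgEquiv.apply_symm_apply]
    · rw [if_neg h5, if_neg (fun h6 => h5 ((h2 g).1 h6)), map_one]
  exact j.injective h3

end YMx

/-- **Row YM.** -/
theorem ym : YM := by
  intro κ _ K G Γ _ _ _ _ _ _ _ _ _ d Φ hΦ e E _ _ _ j τ₀ T _ _ S u x z hz
  funext t
  have e1 : scl (fun k => (∏ g, z ⟨k, g⟩) ^ e k) (mvJ d S u) t =
      (∏ a, (t a).2 ((∏ g, z ⟨(t a).1.1, g⟩) ^ e (t a).1.1)) *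
        ((∏ a, jv d (S a) (t a)) * u (mw S t)) := rfl
  have e2 : mvJ d S (scl (fun k => (∏ g, z ⟨k, g⟩) ^ e k) u) t =
      (∏ a, jv d (S a) (t a)) *
        ((∏ a, (mw S t a).2 ((∏ g, z ⟨(mw S t a).1.1, g⟩) ^ e (mw S t a).1.1)) *
          u (mw S t)) := rfl
  rw [e1, e2]
  have key : ∀ a, (t a).2 ((∏ g, z ⟨(t a).1.1, g⟩) ^ e (t a).1.1) =
      (mw S t a).2 ((∏ g, z ⟨(mw S t a).1.1, g⟩) ^ e (mw S t a).1.1) := by
    intro a
    change (t a).2 ((∏ g, z ⟨(t a).1.1, g⟩) ^ e (t a).1.1) =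
      (t a).2 (S a (t a).1.1 • (∏ g, z ⟨(t a).1.1, g⟩) ^ e (t a).1.1)
    have h4 : ∀ g, S a (t a).1.1 • z ⟨(t a).1.1, g⟩ =
        z ⟨(t a).1.1, S a (t a).1.1 • g⟩ := by
      intro g
      exact YMx.smul_reflex (S a (t a).1.1) (S := Φ ⟨(t a).1.1, g⟩)
        (S' := Φ ⟨(t a).1.1, S a (t a).1.1 • g⟩) (hΦ.2 (t a).1.1 (S a (t a).1.1) g)
        (hz ⟨(t a).1.1, g⟩) (hz ⟨(t a).1.1, S a (t a).1.1 • g⟩)
    have h6 : S a (t a).1.1 • (∏ g : G (t a).1.1, z ⟨(t a).1.1, g⟩ : K (t a).1.1) =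
        ∏ g : G (t a).1.1, z ⟨(t a).1.1, g⟩ := by
      rw [Finset.smul_prod']
      refine (Finset.prod_congr rfl fun g _ => h4 g).trans ?_
      exact Fintype.prod_equiv (MulAction.toPerm (S a (t a).1.1)) _ _ fun g => rfl
    rw [smul_pow', h6]
  rw [Finset.prod_congr rfl fun a _ => key a]
  ring

end

end Pool.Agent.UNG
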