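import Pool.Agent.Lib.UNG.YB
import Pool.Agent.Lib.UNG.YC
import Pool.Agent.Lib.UNG.YI
import Pool.Agent.Lib.UNG.YJ
import Pool.Agent.Lib.UNG.YL
import Pool.Agent.Lib.UNG.YM
import Pool.Agent.Lib.UNG.YO
import Pool.Agent.Lib.UNG.YP
import Pool.Agent.Lib.UNIT.UD
import Pool.Agent.Lib.UNIT.UF
import Pool.Agent.Lib.UNIT.UG
import Pool.Agent.Lib.UNIT.UH
import Pool.Agent.Lib.UNIT.UI
import Pool.Agent.Lib.UNIT.UJ
import Pool.Agent.Lib.UNIT.UK
import Pool.Agent.Lib.UNIT.UL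
import Pool.Agent.Lib.UNIT.UM
import Pool.Agent.Lib.RAT.Fin

/-!
# UNG: final assembly (helper16)
-/

set_option autoImplicit false

open Pool.Agent.HCM Pool.Agent.RAT

namespace Pool.Agent.UNG

/-- **The Tate conjecture for powers of abelian varieties whose Hodge group is as large as
possible**, up to `K`-determinants. -/
theorem tateG : TateG :=
  yp (yo yb yc yi yj UNIT.ud (UNIT.uH (UNIT.uf_of hodgeQ) UNIT.uG) UNIT.ui UNIT.uj UNIT.uk)
    yl ym UNIT.uL UNIT.um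

end Pool.Agent.UNG
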