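import Pool.Agent.Lib.UNG.Rows
import Pool.Agent.Lib.UNQ.Rows

/-!
# UNG: a block with complex conjugation in `Γ` has a quaternionic structure
-/

set_option autoImplicit false
set_option linter.unusedSectionVars false

open scoped TensorProduct ComplexConjugate
open Complex Pool.Agent.HCM Pool.Agent.RAT Pool.Agent.UNIT

namespace Pool.Agent.UNG

noncomputable section

variable {F G Γ : Type} [Field F] [Group Γ] [MulSemiringAction Γ F] [MulAction Γ G]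

theorem conj_sq [FaithfulSMul Γ F] {γ₀ : Γ} (τ : F →+* ℂ)
    (h0 : ∀ τ : F →+* ℂ, emb τ γ₀ = cj τ) : γ₀ * γ₀ = 1 := by
  apply emb_injective τ
  rw [emb_mul, h0, h0, emb_one]
  ext x
  simp [cj]

theorem isQuat [FaithfulSMul Γ F] {h : G → F} {d : Γ → G → F} (hd : IsDesc h d)
    (hh : ∀ g, h g ≠ 0 ∧ ∀ τ : F →+* ℂ, (τ (h g)).im = 0) {γ₀ : Γ} (τ₀ : F →+* ℂ)
    (h0 : ∀ τ : F →+* ℂ, emb τ γ₀ = cj τ) [Nonempty G] :
    UNQ.IsQuat h (fun g => γ₀ • g) (d γ₀) := by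
  obtain ⟨hd1, hd0, hdm, hds⟩ := hd
  have hsq : γ₀ * γ₀ = 1 := conj_sq τ₀ h0
  have hqq : ∀ g : G, γ₀ • γ₀ • g = g := by
    intro g
    rw [← mul_smul, hsq, one_smul]
  obtain ⟨b, hb⟩ := hdm γ₀ γ₀
  have hb' : ∀ g, d γ₀ (γ₀ • g) * γ₀ • d γ₀ g = b := by
    intro g
    rw [hb, hsq, hd1, mul_one]
  have hc : ∀ (τ : F →+* ℂ) (x : F), τ (γ₀ • x) = conj (τ x) := fun τ x =>
    RingHom.congr_fun (h0 τ) x
  obtain ⟨g₀⟩ := ‹Nonempty G›
  have hb0 : b ≠ 0 := by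
    rw [← hb' g₀]
    refine mul_ne_zero (hd0 _ _) ?_
    rw [Ne, smul_eq_zero_iff_eq]
    exact hd0 _ _
  obtain ⟨m, hm⟩ := hds γ₀
  have hhr : ∀ g, γ₀ • h g = h g := by
    intro g
    apply τ₀.injective
    rw [hc]
    exact Complex.conj_eq_iff_im.2 ((hh g).2 τ₀)
  have hm' : ∀ g, h (γ₀ • g) * d γ₀ g * b = m * h g * d γ₀ (γ₀ • g) := by
    intro g
    have h1 : h (γ₀ • g) * (d γ₀ g * γ₀ • d γ₀ g) = m * h g := by
      apply τ₀.injective
      rw [map_mul, map_mul, hc, hm, hhr]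
    rw [← hb' g]
    linear_combination d γ₀ (γ₀ • g) * h1
  have hm0 : m ≠ 0 := by
    intro h1
    have h2 := hm' g₀
    rw [h1, zero_mul, zero_mul] at h2
    exact mul_ne_zero (mul_ne_zero (hh _).1 (hd0 _ _)) hb0 h2
  have hs : ∀ g, h g * d γ₀ (γ₀ • g) = b / m * h (γ₀ • g) * d γ₀ g := by
    intro g
    have h1 := hm' g
    field_simp
    linear_combination -h1
  refine Or.inr ⟨hqq, b, b / m, hb0, ?_, fun g => ⟨fun τ => ?_, hs g⟩⟩
  · have h1 := hs g₀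
    have h2 := hs (γ₀ • g₀)
    rw [hqq] at h2
    have h3 : (b / m) * (b / m) = 1 := by
      have n1 := (hh g₀).1
      have n2 := hd0 γ₀ (γ₀ • g₀)
      have h4 : h g₀ * d γ₀ (γ₀ • g₀) * (b / m * (b / m) - 1) = 0 := by
        linear_combination h1 * (-1) - (b / m) * h2
      rcases mul_eq_zero.1 h4 with h5 | h5
      · exact absurd h5 (mul_ne_zero n1 n2)
      · exact sub_eq_zero.1 h5
    exact mul_self_eq_one_iff.1 h3
  · have h1 := congrArg τ (hb' (γ₀ • g))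
    rw [hqq, map_mul, hc] at h1
    exact h1

end

end Pool.Agent.UNG
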