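import Pool.Agent.Lib.UNG.Basic
import Pool.Agent.Lib.UNIT.Rows

/-!
# UNG: statements of the rows

Row `X` is `theorem x : X` (small first letter) in the file `Pool/Agent/Lib/UNG/X.lean`.  `root`, `pc`,
`dc`, `bt`, `IsBT`, `Bal`, `BalD` and the rows `UD`, `UF`, `UG`, `UH`, `UI`, `UJ`, `UK`, `UL`, `UM` are
those of `UNIT`.
-/

set_option autoImplicit false

open scoped TensorProduct ComplexConjugate
open Complex Pool.Agent.HCM Pool.Agent.RAT Pool.Agent.UNIT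

namespace Pool.Agent.UNG

noncomputable section

section defs

variable {κ : Type} {K G Γ : κ → Type} [∀ k, Field (K k)] [∀ k, Group (Γ k)]
  [∀ k, MulSemiringAction (Γ k) (K k)] [∀ k, MulAction (Γ k) (G k)] {T : Type} [Fintype T]
  [DecidableEq T]

/-- The sum of the conjugates by the `J_γ` of the root vector `root (g, g', τ)`. -/
def rootG [∀ k, Fintype (Γ k)] (h : ∀ k, G k → K k) (d : ∀ k, Γ k → G k → K k) (k : κ)
    (g g' : G k) (τ : K k →+* ℂ) (u : (T → LU K G) → ℂ) (t : T → LU K G) : ℂ :=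
  ∑ γ : Γ k, emb τ γ⁻¹ (d k γ g) / emb τ γ⁻¹ (d k γ g') *
    root h k (γ • g) (γ • g') (emb τ γ⁻¹) u t

variable (K Γ) in
/-- The complex conjugation is in `Γ k`. -/
def HasConj (k : κ) : Prop := ∃ γ : Γ k, ∀ τ : K k →+* ℂ, emb τ γ = cj τ

/-- All root vectors kill `u` (for the blocks with complex conjugation in `Γ k` also those with
`g = g'`). -/
def KilledG [∀ k, Fintype (Γ k)] (h : ∀ k, G k → K k) (d : ∀ k, Γ k → G k → K k)
    (u : (T → LU K G) → ℂ) : Prop :=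
  ∀ (k : κ) (g g' : G k) (τ : K k →+* ℂ), (g ≠ g' ∨ HasConj K Γ k) →
    ∀ t : T → LU K G, rootG h d k g g' τ u t = 0

end defs

/-- YB: all blocks, first fundamental theorems for `𝔰𝔩`, `𝔰𝔭`, `𝔰𝔬`. -/
def YB : Prop :=
  ∀ (κ : Type) [Fintype κ] (K G Γ : κ → Type) [∀ k, Field (K k)] [∀ k, NumberField (K k)]
    [∀ k, NumberField.IsCMField (K k)] [∀ k, Fintype (G k)] [∀ k, Nonempty (G k)]
    [∀ k, Group (Γ k)] [∀ k, Fintype (Γ k)] [∀ k, MulSemiringAction (Γ k) (K k)]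
    [∀ k, FaithfulSMul (Γ k) (K k)] [∀ k, MulAction (Γ k) (G k)] (h : ∀ k, G k → K k),
    (∀ k g, h k g ≠ 0 ∧ ∀ τ : K k →+* ℂ, (τ (h k g)).im = 0) →
    ∀ d : ∀ k, Γ k → G k → K k, (∀ k, IsDesc (h k) (d k)) →
    ∀ (T : Type) [Fintype T] [DecidableEq T] (u : (T → LU K G) → ℂ), KilledG h d u →
    u ∈ Submodule.span ℂ {w : (T → LU K G) → ℂ | ∃ (S : T → ∀ k, Γ k) (w₀ : (T → LU K G) → ℂ),
      IsBT h w₀ ∧ w = mvJ d S w₀}

/-- YC: the rational Lie algebras and the root vectors. -/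
def YC : Prop :=
  ∀ (κ : Type) [Fintype κ] [DecidableEq κ] (K G Γ : κ → Type) [∀ k, Field (K k)]
    [∀ k, NumberField (K k)] [∀ k, NumberField.IsCMField (K k)] [∀ k, Fintype (G k)]
    [∀ k, Group (Γ k)] [∀ k, Fintype (Γ k)] [∀ k, MulSemiringAction (Γ k) (K k)]
    [∀ k, FaithfulSMul (Γ k) (K k)] [∀ k, MulAction (Γ k) (G k)] (h : ∀ k, G k → K k),
    (∀ k g, h k g ≠ 0 ∧ ∀ τ : K k →+* ℂ, (τ (h k g)).im = 0) →
    ∀ d : ∀ k, Γ k → G k → K k, (∀ k, IsDesc (h k) (d k)) →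
    ∀ (T : Type) [Fintype T] [DecidableEq T] (u : (T → LU K G) → ℂ),
    (∀ X : ∀ k, Matrix (G k) (G k) (K k), IsSUG h d X → der X u = 0) → KilledG h d u

/-- YI: the `J_γ` do not change the weights. -/
def YI : Prop :=
  ∀ (κ : Type) [Fintype κ] (K G Γ : κ → Type) [∀ k, Field (K k)] [∀ k, NumberField (K k)]
    [∀ k, NumberField.IsCMField (K k)] [∀ k, Fintype (G k)] [∀ k, Nonempty (G k)]
    [∀ k, Group (Γ k)] [∀ k, Fintype (Γ k)] [∀ k, MulSemiringAction (Γ k) (K k)]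
    [∀ k, MulAction (Γ k) (G k)]
    (Φ : ∀ i : Σ k, G k, Set (K i.1 →+* ℂ)), IsTypeG Γ Φ →
    ∀ (e : κ → ℕ) (E : Type) [Field E] [NumberField E] [IsGalois ℚ E] (_ : ∀ k, K k →+* E)
    (τ₀ : E →+* ℂ) (m : ℕ) (T : Type) [Fintype T] [DecidableEq T] (S : T → ∀ k, Γ k)
    (t : T → LU K G), Bal Φ e τ₀ m t ↔ Bal Φ e τ₀ m (mw S t)

/-- YJ: the `J_γ` keep `H_1(X, ℚ)^{⊗ T}`. -/
def YJ : Prop :=
  ∀ (κ : Type) [Fintype κ] (K G Γ : κ → Type) [∀ k, Field (K k)] [∀ k, NumberField (K k)]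
    [∀ k, Fintype (G k)] [∀ k, Group (Γ k)] [∀ k, MulSemiringAction (Γ k) (K k)]
    [∀ k, MulAction (Γ k) (G k)] (d : ∀ k, Γ k → G k → K k)
    (T : Type) [Fintype T] [DecidableEq T] (S : T → ∀ k, Γ k),
    ∀ u ∈ TQ K G T, mvJ d S u ∈ TQ K G T

/-- YL: the `J_γ` commute with the Lie algebra. -/
def YL : Prop :=
  ∀ (κ : Type) [Fintype κ] (K G Γ : κ → Type) [∀ k, Field (K k)] [∀ k, NumberField (K k)]
    [∀ k, Fintype (G k)] [∀ k, Group (Γ k)] [∀ k, MulSemiringAction (Γ k) (K k)]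
    [∀ k, MulAction (Γ k) (G k)] (h : ∀ k, G k → K k) (d : ∀ k, Γ k → G k → K k),
    (∀ k γ g, d k γ g ≠ 0) →
    ∀ (T : Type) [Fintype T] [DecidableEq T] (S : T → ∀ k, Γ k) (u : (T → LU K G) → ℂ)
    (X : ∀ k, Matrix (G k) (G k) (K k)), IsSUG h d X →
    der X (mvJ d S u) = mvJ d S (der X u)

/-- YM: the `J_γ` commute with the torus. -/
def YM : Prop :=
  ∀ (κ : Type) [Fintype κ] (K G Γ : κ → Type) [∀ k, Field (K k)] [∀ k, NumberField (K k)]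
    [∀ k, NumberField.IsCMField (K k)] [∀ k, Fintype (G k)] [∀ k, Nonempty (G k)]
    [∀ k, Group (Γ k)] [∀ k, Fintype (Γ k)] [∀ k, MulSemiringAction (Γ k) (K k)]
    [∀ k, MulAction (Γ k) (G k)] (d : ∀ k, Γ k → G k → K k)
    (Φ : ∀ i : Σ k, G k, Set (K i.1 →+* ℂ)), IsTypeG Γ Φ →
    ∀ (e : κ → ℕ) (E : Type) [Field E] [NumberField E] [IsGalois ℚ E] (j : ∀ k, K k →+* E)
    (τ₀ : E →+* ℂ) (T : Type) [Fintype T] [DecidableEq T] (S : T → ∀ k, Γ k)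
    (u : (T → LU K G) → ℂ) (x : E) (z : ∀ i : Σ k, G k, K i.1),
    IsReflexNorm Φ (fun i => j i.1) τ₀ x z →
    scl (fun k => (∏ g, z ⟨k, g⟩) ^ e k) (mvJ d S u) =
      mvJ d S (scl (fun k => (∏ g, z ⟨k, g⟩) ^ e k) u)

/-- The rational form of the theorem, without `ℚ_p`. -/
def YN : Prop :=
  ∀ (n : ℕ) (κ : Type) [Fintype κ] (K G Γ : κ → Type) [∀ k, Field (K k)]
    [∀ k, NumberField (K k)] [∀ k, NumberField.IsCMField (K k)] [∀ k, Fintype (G k)]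
    [∀ k, Nonempty (G k)] [∀ k, Group (Γ k)] [∀ k, Fintype (Γ k)]
    [∀ k, MulSemiringAction (Γ k) (K k)] [∀ k, FaithfulSMul (Γ k) (K k)]
    [∀ k, MulAction (Γ k) (G k)] (h : ∀ k, G k → K k),
    (∀ k g, h k g ≠ 0 ∧ ∀ τ : K k →+* ℂ, (τ (h k g)).im = 0) →
    ∀ d : ∀ k, Γ k → G k → K k, (∀ k, IsDesc (h k) (d k)) →
    ∀ Φ : ∀ i : Σ k, G k, Set (K i.1 →+* ℂ), IsTypeG Γ Φ →
    ∀ (N : ℕ) (e : κ → ℕ), 0 < N → (∀ k, e k * Fintype.card (G k) = N) →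
    ∀ (E : Type) [Field E] [NumberField E] [IsGalois ℚ E] (j : ∀ k, K k →+* E) (τ₀ : E →+* ℂ)
      (M : ℕ), 0 < M → ∀ u ∈ TQ K G (Fin (2 * n)),
      (∀ X : ∀ k, Matrix (G k) (G k) (K k), IsSUG h d X → der X u = 0) →
      (∀ y : E, IsIntegral ℤ y → ∀ z : ∀ i : Σ k, G k, K i.1,
        IsReflexNorm Φ (fun i => j i.1) τ₀ (1 + (M : E) * y) z →
        scl (fun k => (∏ g, z ⟨k, g⟩) ^ e k) u =
          (Algebra.norm ℚ (1 + (M : E) * y)) ^ (n * N) • u) →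
      u ∈ Submodule.span ℚ {w : (Fin (2 * n) → LU K G) → ℂ | IsProdG Φ h d n w}

/-- YO: assembly of the rational form, with the rows of `UNIT`. -/
def YO : Prop := YB → YC → YI → YJ → UNIT.UD → UNIT.UH → UNIT.UI → UNIT.UJ → UNIT.UK → YN

/-- YP: from the rational form to `ℚ_p`, with the rows of `UNIT`. -/
def YP : Prop := YN → YL → YM → UNIT.UL → UNIT.UM → TateG

end

end Pool.Agent.UNG
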