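import Pool.Agent.Lib.UNG.Fin

/-!
# The Tate conjecture for abelian varieties with Hodge groups as large as possible: short form

The same statement as `Pool.Agent.UNG.TateG`, with the same tensors; the letter moved by the
endomorphism `J_γ` is written with the block `bl y = k`, the place `pl y = g` and the embedding
`em y = τ` of the letter `y = (k, g, τ)`.
-/

set_option autoImplicit false

open scoped TensorProduct ComplexConjugate
open Complex Pool.Agent.HCM Pool.Agent.RAT Pool.Agent.UNIT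

namespace Pool.Agent.UNG

noncomputable section

section letters

variable {κ : Type} {K G Γ : κ → Type} [∀ k, Field (K k)] [∀ k, Group (Γ k)]
  [∀ k, MulSemiringAction (Γ k) (K k)] [∀ k, MulAction (Γ k) (G k)]

/-- The embedding `τ` of the letter `(k, g, τ)`. -/
def em (y : LU K G) : K (bl y) →+* ℂ := y.2

/-- The letter `(k, γ⁻¹ g, τ ∘ γ)`. -/
def tw (k : κ) (γ : Γ k) (g : G k) (τ : K k →+* ℂ) : LU K G := ⟨⟨k, γ⁻¹ • g⟩, emb τ γ⟩

/-- The letter `(k, γ⁻¹ g, τ ∘ γ)`, for `y = (k, g, τ)`, `γ = s k`. -/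
def jmS (s : ∀ k, Γ k) (y : LU K G) : LU K G := tw (bl y) (s (bl y)) (pl y) (em y)

/-- The number `τ (d γ (γ⁻¹ g))`, for `y = (k, g, τ)`, `γ = s k`. -/
def jvS (d : ∀ k, Γ k → G k → K k) (s : ∀ k, Γ k) (y : LU K G) : ℂ :=
  ev y (d (bl y) (s (bl y)) ((s (bl y))⁻¹ • pl y))

theorem jmS_eq (s : ∀ k, Γ k) (y : LU K G) : jmS s y = jm s y := rfl

theorem jvS_eq (d : ∀ k, Γ k → G k → K k) (s : ∀ k, Γ k) (y : LU K G) : jvS d s y = jv d s y := rfl

/-- The endomorphism `∏ k, J_(S a k)` of `X` applied to a tensor at the place `a`, for all `a`: the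
letter `y = (k, g, τ)` is the linear form `x ↦ τ (x (k, g))`, and composed with `J_γ` this is `jvS`
times `jmS`. -/
def mvS {T : Type} [Fintype T] (d : ∀ k, Γ k → G k → K k) (S : T → ∀ k, Γ k)
    (u : (T → LU K G) → ℂ) (t : T → LU K G) : ℂ :=
  (∏ a, jvS d (S a) (t a)) * u fun a => jmS (S a) (t a)

theorem mvS_eq {T : Type} [Fintype T] (d : ∀ k, Γ k → G k → K k) (S : T → ∀ k, Γ k)
    (u : (T → LU K G) → ℂ) : mvS d S u = mvJ d S u := by
  funext t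
  rfl

/-- `u` is obtained by the endomorphisms `J_γ`, at the places, from a product `IsProdL`: a tensor
product of divisor classes (given by the hermitian forms) and of the transfer, by `K`-determinants, of
a combination of classes of maps from compact arithmetic ball quotients to a CM abelian variety. -/
def IsProdS [∀ k, Fintype (G k)] [∀ k, NumberField (K k)]
    (Φ : ∀ i : Σ k, G k, Set (K i.1 →+* ℂ)) (h : ∀ k, G k → K k)
    (d : ∀ k, Γ k → G k → K k) (n : ℕ) (u : (Fin (2 * n) → LU K G) → ℂ) : Prop :=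
  ∃ (S : Fin (2 * n) → ∀ k, Γ k) (u₀ : (Fin (2 * n) → LU K G) → ℂ),
    IsProdL Φ h n u₀ ∧ u = mvS d S u₀

theorem isProdS_eq [∀ k, Fintype (G k)] [∀ k, NumberField (K k)]
    (Φ : ∀ i : Σ k, G k, Set (K i.1 →+* ℂ)) (h : ∀ k, G k → K k)
    (d : ∀ k, Γ k → G k → K k) (n : ℕ) (u : (Fin (2 * n) → LU K G) → ℂ) :
    IsProdS Φ h d n u ↔ IsProdG Φ h d n u := by
  unfold IsProdS IsProdG
  simp only [mvS_eq]

/-- `c` is a combination, with coefficients in `ℚ_p`, of the products `IsProdS`. -/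
def IsAlgS (p : ℕ) [Fact p.Prime] [∀ k, Fintype (G k)] [∀ k, NumberField (K k)]
    (Φ : ∀ i : Σ k, G k, Set (K i.1 →+* ℂ)) (h : ∀ k, G k → K k)
    (d : ∀ k, Γ k → G k → K k) {n : ℕ} (c : ℚ_[p] ⊗[ℚ] ((Fin (2 * n) → LU K G) → ℂ)) : Prop :=
  c ∈ Submodule.span ℚ_[p] {w | ∃ u, IsProdS Φ h d n u ∧ w = (1 : ℚ_[p]) ⊗ₜ[ℚ] u}

theorem isAlgS_eq (p : ℕ) [Fact p.Prime] [∀ k, Fintype (G k)] [∀ k, NumberField (K k)]
    (Φ : ∀ i : Σ k, G k, Set (K i.1 →+* ℂ)) (h : ∀ k, G k → K k)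
    (d : ∀ k, Γ k → G k → K k) {n : ℕ} (c : ℚ_[p] ⊗[ℚ] ((Fin (2 * n) → LU K G) → ℂ)) :
    IsAlgS p Φ h d c ↔ IsAlgG p Φ h d c := by
  unfold IsAlgS IsAlgG
  simp only [isProdS_eq]

end letters

/-- `TateG` in the short form. -/
theorem tateS (p : ℕ) [Fact p.Prime] (n : ℕ) (κ : Type) [Fintype κ] (K G Γ : κ → Type)
    [∀ k, Field (K k)] [∀ k, NumberField (K k)] [∀ k, NumberField.IsCMField (K k)]
    [∀ k, Fintype (G k)] [∀ k, Nonempty (G k)] [∀ k, Group (Γ k)] [∀ k, Fintype (Γ k)]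
    [∀ k, MulSemiringAction (Γ k) (K k)] [∀ k, FaithfulSMul (Γ k) (K k)]
    [∀ k, MulAction (Γ k) (G k)]
    (h : ∀ k, G k → K k) (hh : ∀ k g, h k g ≠ 0 ∧ ∀ τ : K k →+* ℂ, (τ (h k g)).im = 0)
    (d : ∀ k, Γ k → G k → K k) (hd : ∀ k, IsDesc (h k) (d k))
    (Φ : ∀ i : Σ k, G k, Set (K i.1 →+* ℂ)) (hΦ : IsTypeG Γ Φ)
    (N : ℕ) (e : κ → ℕ) (hN : 0 < N) (he : ∀ k, e k * Fintype.card (G k) = N)
    (E : Type) [Field E] [NumberField E] [IsGalois ℚ E] (j : ∀ k, K k →+* E) (τ₀ : E →+* ℂ)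
    (c : ℚ_[p] ⊗[ℚ] ((Fin (2 * n) → LU K G) → ℂ)) (hc : IsTensP p c) :
    IsTateG p Φ h d N e j τ₀ c ↔ IsAlgS p Φ h d c := by
  rw [isAlgS_eq]
  exact tateG p n κ K G Γ h hh d hd Φ hΦ N e hN he E j τ₀ c hc

end

end Pool.Agent.UNG
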