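import Pool.Agent.Lib.UNIT.Short

/-!
# The Tate conjecture for abelian varieties with Hodge groups as large as possible: statement

`K k`, `k : κ`, are finitely many CM fields, `G k` finite nonempty sets.  `X = ∏ k, A k` is an abelian
variety, `A k` has multiplication by `K k`, `H_1(A k, ℚ) = (K k)^(G k)`, and is polarised by the
hermitian form `∑ g, h k g * x g * conj (y g)`.  A finite group `Γ k` acts faithfully on `K k`, and on
`G k`, and `A k` has the endomorphisms `J_γ(x)_(γ g) = d γ g * γ (x g)`, `γ : Γ k`: the algebra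
`∑ γ, K k * J_γ` is a crossed product over the fixed field.

For an embedding `τ : K k → ℂ` the part of `H_1(A k, ℂ)` on which `K k` acts by `τ` has the basis
`(k, g, τ)`, `g : G k`, and is of type `(1,0)^a + (0,1)^b`, `a` the number of the `g` with
`τ ∈ Φ (k, g)`.  The notation is that of `Pool.Agent.Lib.UNIT.Stat` and `Pool.Agent.Lib.UNIT.Short`.
-/

set_option autoImplicit false

open scoped TensorProduct ComplexConjugate
open Complex Pool.Agent.HCM Pool.Agent.RAT Pool.Agent.UNIT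

namespace Pool.Agent.UNG

noncomputable section

/-- The embedding `x ↦ τ (γ x)`. -/
def emb {F Γ : Type} [Field F] [Group Γ] [MulSemiringAction Γ F] (τ : F →+* ℂ) (γ : Γ) :
    F →+* ℂ :=
  τ.comp (MulSemiringAction.toRingHom Γ F γ)

/-- The maps `J_γ(x)_(γ g) = d γ g * γ (x g)`, `γ : Γ`, form a group up to the scalars in `F`, and are
similitudes up to scalars of the hermitian form `∑ g, h g * x g * conj (y g)`. -/
def IsDesc {F G Γ : Type} [Field F] [Group Γ] [MulSemiringAction Γ F] [MulAction Γ G] (h : G → F)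
    (d : Γ → G → F) : Prop :=
  (∀ g, d 1 g = 1) ∧ (∀ γ g, d γ g ≠ 0) ∧
    (∀ γ δ : Γ, ∃ c : F, ∀ g, d γ (δ • g) * γ • d δ g = c * d (γ * δ) g) ∧
    ∀ γ : Γ, ∃ c : F, ∀ (g : G) (τ : F →+* ℂ),
      τ (h (γ • g)) * (τ (d γ g) * conj (τ (d γ g))) = τ (c * γ • h g)

section tensors

variable {κ : Type} {K G Γ : κ → Type} [∀ k, Field (K k)] [∀ k, Group (Γ k)]
  [∀ k, MulSemiringAction (Γ k) (K k)] [∀ k, MulAction (Γ k) (G k)]

variable (Γ) in
/-- The `Φ (k, g)` are CM types, and the `J_γ` are endomorphisms of the abelian variety. -/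
def IsTypeG (Φ : ∀ i : Σ k, G k, Set (K i.1 →+* ℂ)) : Prop :=
  (∀ i, IsCMType (Φ i)) ∧
    ∀ (k : κ) (γ : Γ k) (g : G k) (τ : K k →+* ℂ), τ ∈ Φ ⟨k, γ • g⟩ ↔ emb τ γ ∈ Φ ⟨k, g⟩

/-- `X` lies in the product of the Lie algebras `𝔰𝔲` of the hermitian forms `h k` and commutes with
the `J_γ`. -/
def IsSUG [∀ k, Fintype (G k)] (h : ∀ k, G k → K k) (d : ∀ k, Γ k → G k → K k)
    (X : ∀ k, Matrix (G k) (G k) (K k)) : Prop :=
  IsSU h X ∧ ∀ (k : κ) (γ : Γ k) (a b : G k),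
    d k γ b * X k (γ • a) (γ • b) = d k γ a * γ • X k a b

/-- The letter `(k, γ⁻¹ g, τ ∘ γ)`, for `y = (k, g, τ)`, `γ = s k`. -/
def jm (s : ∀ k, Γ k) (y : LU K G) : LU K G :=
  ⟨⟨y.1.1, (s y.1.1)⁻¹ • y.1.2⟩, emb y.2 (s y.1.1)⟩

/-- The number `τ (d γ (γ⁻¹ g))`, for `y = (k, g, τ)`, `γ = s k`. -/
def jv (d : ∀ k, Γ k → G k → K k) (s : ∀ k, Γ k) (y : LU K G) : ℂ :=
  y.2 (d y.1.1 (s y.1.1) ((s y.1.1)⁻¹ • y.1.2))

/-- The endomorphism `∏ k, J_(S a k)` of `X` applied to a tensor at the place `a`, for all `a`: the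
letter `y = (k, g, τ)` is the linear form `x ↦ τ (x (k, g))`, and composed with `J_γ` this is `jv`
times `jm`. -/
def mvJ {T : Type} [Fintype T] (d : ∀ k, Γ k → G k → K k) (S : T → ∀ k, Γ k)
    (u : (T → LU K G) → ℂ) (t : T → LU K G) : ℂ :=
  (∏ a, jv d (S a) (t a)) * u fun a => jm (S a) (t a)

/-- Tate classes in `H_1(X, ℚ_p)^{⊗ 2n}` (`N = e k * card (G k)` for all `k`): the Lie algebras `IsSUG`
kill `c`, and, for some `m`, for every `x ∈ 𝓞 E` with `x ≡ 1 mod p^m` the multiplication by the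
`e k`-th power of the product over `g : G k` of the reflex norms `z (k, g)` of `x` acts on `c` by the
`nN`-th power of the norm of `x`. -/
def IsTateG (p : ℕ) [Fact p.Prime] [∀ k, Fintype (G k)] {n : ℕ} {E : Type} [Field E]
    [NumberField E] (Φ : ∀ i : Σ k, G k, Set (K i.1 →+* ℂ)) (h : ∀ k, G k → K k)
    (d : ∀ k, Γ k → G k → K k) (N : ℕ) (e : κ → ℕ) (j : ∀ k, K k →+* E)
    (τ₀ : E →+* ℂ) (c : ℚ_[p] ⊗[ℚ] ((Fin (2 * n) → LU K G) → ℂ)) : Prop :=
  (∀ X : ∀ k, Matrix (G k) (G k) (K k), IsSUG h d X → KillsP p X c) ∧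
  ∃ m : ℕ, ∀ y : E, IsIntegral ℤ y → ∀ z : ∀ i : Σ k, G k, K i.1,
    IsReflexNorm Φ (fun i => j i.1) τ₀ (1 + (p : E) ^ m * y) z →
      ActsP p (fun k => (∏ g, z ⟨k, g⟩) ^ e k)
        (Algebra.norm ℚ (1 + (p : E) ^ m * y) ^ (n * N)) c

/-- `u` is obtained by the endomorphisms `J_γ`, at the places, from a product `IsProdL`: a tensor
product of divisor classes (given by the hermitian forms) and of the transfer, by `K`-determinants, of
a combination of classes of maps from compact arithmetic ball quotients to a CM abelian variety. -/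
def IsProdG [∀ k, Fintype (G k)] [∀ k, NumberField (K k)]
    (Φ : ∀ i : Σ k, G k, Set (K i.1 →+* ℂ)) (h : ∀ k, G k → K k)
    (d : ∀ k, Γ k → G k → K k) (n : ℕ) (u : (Fin (2 * n) → LU K G) → ℂ) : Prop :=
  ∃ (S : Fin (2 * n) → ∀ k, Γ k) (u₀ : (Fin (2 * n) → LU K G) → ℂ),
    IsProdL Φ h n u₀ ∧ u = mvJ d S u₀

/-- `c` is a combination, with coefficients in `ℚ_p`, of the products `IsProdG`. -/
def IsAlgG (p : ℕ) [Fact p.Prime] [∀ k, Fintype (G k)] [∀ k, NumberField (K k)]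
    (Φ : ∀ i : Σ k, G k, Set (K i.1 →+* ℂ)) (h : ∀ k, G k → K k)
    (d : ∀ k, Γ k → G k → K k) {n : ℕ} (c : ℚ_[p] ⊗[ℚ] ((Fin (2 * n) → LU K G) → ℂ)) : Prop :=
  c ∈ Submodule.span ℚ_[p] {w | ∃ u, IsProdG Φ h d n u ∧ w = (1 : ℚ_[p]) ⊗ₜ[ℚ] u}

end tensors

/-- **The Tate conjecture for powers of `X`**, up to `K`-determinants: the Tate classes in
`H_1(X, ℚ_p)^{⊗ 2n}` are the `ℚ_p`-linear combinations of the products of divisor classes and of
transfers of classes of maps from compact arithmetic ball quotients to CM abelian varieties, with the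
endomorphisms `J_γ` applied at the places. -/
def TateG : Prop :=
  ∀ (p : ℕ) [Fact p.Prime] (n : ℕ) (κ : Type) [Fintype κ] (K G Γ : κ → Type) [∀ k, Field (K k)]
    [∀ k, NumberField (K k)] [∀ k, NumberField.IsCMField (K k)] [∀ k, Fintype (G k)]
    [∀ k, Nonempty (G k)] [∀ k, Group (Γ k)] [∀ k, Fintype (Γ k)]
    [∀ k, MulSemiringAction (Γ k) (K k)] [∀ k, FaithfulSMul (Γ k) (K k)]
    [∀ k, MulAction (Γ k) (G k)] (h : ∀ k, G k → K k),
    (∀ k g, h k g ≠ 0 ∧ ∀ τ : K k →+* ℂ, (τ (h k g)).im = 0) →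
    ∀ d : ∀ k, Γ k → G k → K k, (∀ k, IsDesc (h k) (d k)) →
    ∀ Φ : ∀ i : Σ k, G k, Set (K i.1 →+* ℂ), IsTypeG Γ Φ →
    ∀ (N : ℕ) (e : κ → ℕ), 0 < N → (∀ k, e k * Fintype.card (G k) = N) →
    ∀ (E : Type) [Field E] [NumberField E] [IsGalois ℚ E] (j : ∀ k, K k →+* E) (τ₀ : E →+* ℂ)
      (c : ℚ_[p] ⊗[ℚ] ((Fin (2 * n) → LU K G) → ℂ)), IsTensP p c →
      (IsTateG p Φ h d N e j τ₀ c ↔ IsAlgG p Φ h d c)

end

end Pool.Agent.UNG
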