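import Pool.Agent.Lib.UNG.YBC
import Pool.Agent.Lib.UNQ.QBF

/-!
# Row YB: all blocks
-/

set_option autoImplicit false
set_option linter.unusedSectionVars false

open Function Pool.Agent.HCM Pool.Agent.RAT Pool.Agent.UNIT
open scoped ComplexConjugate

namespace Pool.Agent.UNG

open YBx

open Classical in
/-- **YB**: all blocks. -/
theorem yb : YB := by
  intro κ _ K G Γ _ _ _ _ _ _ _ _ _ _ h hh d hd T _ _ u hu
  have h0 : ∀ k g, h k g ≠ 0 := fun k g => (hh k g).1
  choose R hR1 hR2 hR3 using fun k => exists_rep (F := K k) (Γ := Γ k)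
  have hex : ∀ k, ∃ c : Γ k, HasConj K Γ k → ∀ τ : K k →+* ℂ, emb τ c = cj τ := by
    intro k
    by_cases h1 : HasConj K Γ k
    · obtain ⟨c, hc⟩ := h1
      exact ⟨c, fun _ => hc⟩
    · exact ⟨1, fun h2 => absurd h2 h1⟩
  choose c hc using hex
  have hcc : ∀ k, HasConj K Γ k → (c k)⁻¹ = c k := by
    intro k hk
    obtain ⟨τ⟩ := (inferInstance : Nonempty (K k →+* ℂ))
    exact inv_eq_of_mul_eq_one_left (conj_sq τ (hc k hk))
  have hq : ∀ k, UNQ.IsQuat (h k) (qq (K := K) c k) (dd c d k) := by
    intro k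
    by_cases hk : HasConj K Γ k
    · rw [qq_pos c hk, dd_pos c hk]
      obtain ⟨τ⟩ := (inferInstance : Nonempty (K k →+* ℂ))
      exact isQuat (hd k) (hh k) τ (hc k hk)
    · rw [dd_neg c hk]
      exact Or.inl fun _ => rfl
  rw [sum_res u]
  refine Submodule.sum_mem _ fun P _ => ?_
  have hS : ∀ a, ∃ s : ∀ k, Γ k, emb (P a).2 (s (P a).1)⁻¹ ∈ R (P a).1 := by
    intro a
    obtain ⟨γ, hγ⟩ := hR2 (P a).1 (P a).2
    refine ⟨update (fun _ => 1) (P a).1 γ⁻¹, ?_⟩
    rw [update_self, inv_inv]
    exact hγ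
  choose S hS using hS
  -- the letters of the moved function
  have hlet : ∀ t, mvJ d S (res P u) t ≠ 0 → ∀ a (k : κ) (g : G k) (τ : K k →+* ℂ),
      t a = ⟨⟨k, g⟩, τ⟩ → τ ∈ R k := by
    intro t ht a k g τ hta
    have h1 := congrFun (res_ne (right_ne_zero_of_mul ht)) a
    have h2 : (⟨k, emb τ (S a k)⟩ : Σ k, (K k →+* ℂ)) = P a := by
      rw [← h1]
      change _ = (⟨(jm (S a) (t a)).1.1, (jm (S a) (t a)).2⟩ : Σ k, (K k →+* ℂ))
      rw [hta]
      rfl
    have h3 := hS a
    rw [← h2] at h3
    change emb (emb τ (S a k)) (S a k)⁻¹ ∈ R k at h3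
    rw [emb_inv_emb] at h3
    exact h3
  have hout : ∀ (k : κ) (τ : K k →+* ℂ), τ ∉ R k → ∀ (g g' : G k) (t : T → LU K G),
      root h k g g' τ (mvJ d S (res P u)) t = 0 := by
    intro k τ hτ g g' t
    refine root_none h k g g' τ _ (fun t ht a g h1 => hτ (hlet t ht a k g τ h1))
      (fun t ht a g h1 => hτ ?_) t
    have h2 := hR1 k _ (hlet t ht a k g _ h1)
    rw [UBx.cj_cj'] at h2
    exact h2
  -- the moved function is killed
  have hkill : ∀ (k : κ) (g g' : G k) (τ : K k →+* ℂ), (g ≠ g' ∨ HasConj K Γ k) →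
      ∀ t : T → LU K G, rootG h d k g g' τ (mvJ d S (res P u)) t = 0 := by
    intro k g g' τ hg t
    rw [rootG_mvJ (hd k) (h0 k), rootG_res, hu k g g' τ hg, ite_self, mul_zero]
  have hQ : UNQ.KilledQ h (qq (K := K) c) (dd c d) (mvJ d S (res P u)) := by
    intro k
    constructor
    · intro hk g g' τ hg t
      have hk' : ¬ HasConj K Γ k := by
        intro h1
        obtain ⟨g⟩ := (inferInstance : Nonempty (G k))
        rw [dd_pos c h1] at hk
        exact (hd k).2.1 (c k) g (congrFun hk g)
      by_cases hτ : τ ∈ R k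
      · have h1 := hkill k g g' τ (Or.inl hg) t
        unfold rootG at h1
        rw [Finset.sum_eq_single 1] at h1
        · rw [(hd k).1, (hd k).1, map_one, div_one, one_mul, one_smul, one_smul, inv_one,
            emb_one] at h1
          exact h1
        · intro γ _ hγ
          rw [hout, mul_zero]
          intro h2
          rcases hR3 k τ hτ γ⁻¹ h2 with h3 | h3
          · exact hγ (inv_eq_one.mp h3)
          · exact hk' ⟨γ⁻¹, emb_conj h3⟩
        · intro h2
          exact absurd (Finset.mem_univ _) h2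
      · exact hout k τ hτ g g' t
    · intro hk g g' τ t
      have hk' : HasConj K Γ k := by
        by_contra h1
        exact hk (dd_neg c h1)
      unfold UNQ.rootQ
      by_cases hτ : τ ∈ R k
      · have h1 := hkill k g g' τ (Or.inr hk') t
        have hne : (1 : Γ k) ≠ c k := by
          intro h2
          have h3 := hc k hk' τ
          rw [← h2, emb_one] at h3
          exact UBx.cj_ne τ h3.symm
        unfold rootG at h1
        rw [Finset.sum_eq_add 1 (c k) hne] at h1
        · rw [(hd k).1, (hd k).1, map_one, div_one, one_mul, one_smul, one_smul, inv_one,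
            emb_one, hcc k hk', hc k hk'] at h1
          rw [qq_pos c hk', dd_pos c hk']
          obtain hz | ⟨-, b, s, -, -, hb⟩ := hq k
          · rw [dd_pos c hk'] at hz
            exact absurd (hz g) ((hd k).2.1 _ _)
          · rw [dd_pos c hk', qq_pos c hk'] at hb
            have e1 : cj τ (d k (c k) g) * τ (d k (c k) (c k • g)) = cj τ b := by
              rw [← (hb g).1 (cj τ)]
              congr 1
              exact (Complex.conj_conj _).symm
            have e2 : cj τ (d k (c k) g') * τ (d k (c k) (c k • g')) = cj τ b := by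
              rw [← (hb g').1 (cj τ)]
              congr 1
              exact (Complex.conj_conj _).symm
            have n1 : cj τ (d k (c k) g') ≠ 0 := (map_ne_zero _).mpr ((hd k).2.1 _ _)
            have n2 : τ (d k (c k) (c k • g)) ≠ 0 := (map_ne_zero _).mpr ((hd k).2.1 _ _)
            have e3 : τ (d k (c k) (c k • g')) / τ (d k (c k) (c k • g)) =
                cj τ (d k (c k) g) / cj τ (d k (c k) g') := by
              rw [div_eq_div_iff n2 n1]
              linear_combination e2 - e1
            rw [e3]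
            exact h1
        · rintro γ - ⟨h2, h3⟩
          rw [hout, mul_zero]
          intro h4
          rcases hR3 k τ hτ γ⁻¹ h4 with h5 | h5
          · exact h2 (inv_eq_one.mp h5)
          · have h6 := emb_injective τ (h5.trans (hc k hk' τ).symm)
            exact h3 (by rw [← hcc k hk', ← h6, inv_inv])
        · intro h2
          exact absurd (Finset.mem_univ _) h2
        · intro h2
          exact absurd (Finset.mem_univ _) h2
      · have hτ' : cj τ ∉ R k := fun h1 => hτ (by
          have h2 := hR1 k _ h1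
          rw [UBx.cj_cj'] at h2
          exact h2)
        rw [hout k τ hτ, hout k (cj τ) hτ', mul_zero, add_zero]
  have h1 := UNQ.qb κ K G h hh (qq (K := K) c) (dd c d) hq T (mvJ d S (res P u)) hQ
  -- the moves of `UNQ` are moves of `UNG`
  have h2 : mvJ d S (res P u) ∈ Submodule.span ℂ {w : (T → LU K G) → ℂ |
      ∃ (S : T → ∀ k, Γ k) (w₀ : (T → LU K G) → ℂ), IsBT h w₀ ∧ w = mvJ d S w₀} := by
    refine Submodule.span_le.mpr ?_ h1
    rintro w ⟨S', w₀, hw₀, rfl⟩
    rcases mvQ hc hcc (fun k => (hd k).1) S' w₀ (fun t t' => bt_pat hw₀) with h3 | ⟨S'', h3⟩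
    · rw [h3]
      exact Submodule.zero_mem _
    · exact Submodule.subset_span ⟨S'', w₀, hw₀, h3⟩
  -- move back
  obtain ⟨C, hC, h3⟩ := mvJ_mvJ hd P (fun a k => (S a k)⁻¹) S
  have h4 := h3 (res P u) fun t ht => res_ne ht
  have h5 : (fun (a : T) (k : κ) => (S a k)⁻¹ * S a k) = fun _ _ => 1 := by
    funext a k
    exact inv_mul_cancel _
  rw [h5, mvJ_one d fun k => (hd k).1] at h4
  have h6 : res P u = C⁻¹ • mvJ d (fun a k => (S a k)⁻¹) (mvJ d S (res P u)) := by
    rw [h4, smul_smul, inv_mul_cancel₀ hC, one_smul]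
  rw [h6]
  refine Submodule.smul_mem _ _ (mvJ_span d _ ?_ h2)
  rintro w ⟨S', w₀, hw₀, rfl⟩
  by_cases h7 : ∃ t, w₀ t ≠ 0
  · obtain ⟨t₀, h8⟩ := h7
    obtain ⟨C', -, h9⟩ := mvJ_mvJ hd (pat t₀) (fun a k => (S a k)⁻¹) S'
    rw [h9 w₀ fun t ht => bt_pat hw₀ ht h8]
    exact Submodule.smul_mem _ _ (Submodule.subset_span ⟨_, w₀, hw₀, rfl⟩)
  · push Not at h7
    have h8 : w₀ = 0 := funext h7
    rw [h8, mvJ_zero, mvJ_zero]
    exact Submodule.zero_mem _

end Pool.Agent.UNG
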