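import Pool.Agent.Lib.UNG.Rows
import Pool.Agent.Lib.UNQ.QB

/-!
# UNG, row YB: the root vectors and the endomorphisms `J_γ` commute
-/

set_option autoImplicit false
set_option linter.unusedSectionVars false

open Function Pool.Agent.HCM Pool.Agent.RAT Pool.Agent.UNIT
open scoped ComplexConjugate

namespace Pool.Agent.UNG.YBx

noncomputable section

variable {κ : Type} {K G Γ : κ → Type} [∀ k, Field (K k)] [∀ k, Group (Γ k)]
  [∀ k, MulSemiringAction (Γ k) (K k)] [∀ k, MulAction (Γ k) (G k)] [∀ k, Fintype (Γ k)]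
  {T : Type} [Fintype T] [DecidableEq T]

section letter

variable (h : ∀ k, G k → K k) (d : ∀ k, Γ k → G k → K k)

open Classical in
/-- `root` at one letter. -/
def ra (k : κ) (g g' : G k) (τ : K k →+* ℂ) (F : LU K G → ℂ) (y : LU K G) : ℂ :=
  (if y = ⟨⟨k, g⟩, τ⟩ then F ⟨⟨k, g'⟩, τ⟩ else 0) -
    τ (h k g) / τ (h k g') * if y = ⟨⟨k, g'⟩, cj τ⟩ then F ⟨⟨k, g⟩, cj τ⟩ else 0

/-- `rootG` at one letter. -/
def rg (k : κ) (g g' : G k) (τ : K k →+* ℂ) (F : LU K G → ℂ) (y : LU K G) : ℂ :=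
  ∑ γ : Γ k, emb τ γ⁻¹ (d k γ g) / emb τ γ⁻¹ (d k γ g') *
    ra h k (γ • g) (γ • g') (emb τ γ⁻¹) F y

theorem root_eq (k : κ) (g g' : G k) (τ : K k →+* ℂ) (u : (T → LU K G) → ℂ) (t : T → LU K G) :
    root h k g g' τ u t = ∑ a, ra h k g g' τ (fun y => u (update t a y)) (t a) := by
  unfold root ra
  rw [Finset.mul_sum, ← Finset.sum_sub_distrib]

theorem rootG_eq (k : κ) (g g' : G k) (τ : K k →+* ℂ) (u : (T → LU K G) → ℂ) (t : T → LU K G) :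
    rootG h d k g g' τ u t = ∑ a, rg h d k g g' τ (fun y => u (update t a y)) (t a) := by
  unfold rootG rg
  rw [Finset.sum_comm]
  refine Finset.sum_congr rfl fun γ _ => ?_
  rw [root_eq, Finset.mul_sum]

/-- `J` at one letter. -/
def ml (s : ∀ k, Γ k) (F : LU K G → ℂ) (y : LU K G) : ℂ := jv d s y * F (jm s y)

theorem ra_smul (k : κ) (g g' : G k) (τ : K k →+* ℂ) (c : ℂ) (F : LU K G → ℂ) (y : LU K G) :
    ra h k g g' τ (fun z => c * F z) y = c * ra h k g g' τ F y := by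
  unfold ra
  split_ifs <;> ring

theorem rg_smul (k : κ) (g g' : G k) (τ : K k →+* ℂ) (c : ℂ) (F : LU K G → ℂ) (y : LU K G) :
    rg h d k g g' τ (fun z => c * F z) y = c * rg h d k g g' τ F y := by
  unfold rg
  rw [Finset.mul_sum]
  refine Finset.sum_congr rfl fun γ _ => ?_
  rw [ra_smul]
  ring

theorem jm_inj (s : ∀ k, Γ k) : Injective (jm s : LU K G → LU K G) := fun x y h => by
  rw [← jm_inv_jm s x, h, jm_inv_jm]

variable {h d}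

open Classical in
theorem ra_ml {k : κ} (hd : IsDesc (h k) (d k)) (h0 : ∀ g, h k g ≠ 0) (g g' : G k)
    (τ : K k →+* ℂ) (s : ∀ k, Γ k) (F : LU K G → ℂ) (y : LU K G) :
    ra h k g g' τ (ml d s F) y =
      τ (d k (s k) ((s k)⁻¹ • g')) / τ (d k (s k) ((s k)⁻¹ • g)) *
        (jv d s y * ra h k ((s k)⁻¹ • g) ((s k)⁻¹ • g') (emb τ (s k)) F (jm s y)) := by
  obtain ⟨-, hne, -, hsim⟩ := hd
  have e1 : jm s (⟨⟨k, g⟩, τ⟩ : LU K G) = ⟨⟨k, (s k)⁻¹ • g⟩, emb τ (s k)⟩ := rfl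
  have e2 : jm s (⟨⟨k, g'⟩, cj τ⟩ : LU K G) = ⟨⟨k, (s k)⁻¹ • g'⟩, cj (emb τ (s k))⟩ := rfl
  have e3 : jm s (⟨⟨k, g⟩, cj τ⟩ : LU K G) = ⟨⟨k, (s k)⁻¹ • g⟩, cj (emb τ (s k))⟩ := rfl
  have n1 : τ (d k (s k) ((s k)⁻¹ • g)) ≠ 0 := (map_ne_zero τ).mpr (hne _ _)
  have n2 : τ (d k (s k) ((s k)⁻¹ • g')) ≠ 0 := (map_ne_zero τ).mpr (hne _ _)
  have c1 : cj τ (d k (s k) ((s k)⁻¹ • g)) ≠ 0 := (map_ne_zero (cj τ)).mpr (hne _ _)
  have c2 : cj τ (d k (s k) ((s k)⁻¹ • g')) ≠ 0 := (map_ne_zero (cj τ)).mpr (hne _ _)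
  have m1 : τ (h k g) ≠ 0 := (map_ne_zero τ).mpr (h0 _)
  have m2 : τ (h k g') ≠ 0 := (map_ne_zero τ).mpr (h0 _)
  have m3 : emb τ (s k) (h k ((s k)⁻¹ • g)) ≠ 0 := (map_ne_zero (emb τ (s k))).mpr (h0 _)
  have m4 : emb τ (s k) (h k ((s k)⁻¹ • g')) ≠ 0 := (map_ne_zero (emb τ (s k))).mpr (h0 _)
  obtain ⟨c, hc⟩ := hsim (s k)
  have s1 := hc ((s k)⁻¹ • g) τ
  have s2 := hc ((s k)⁻¹ • g') τ
  rw [smul_inv_smul, map_mul] at s1 s2
  have s1' : τ (h k g) * (τ (d k (s k) ((s k)⁻¹ • g)) * cj τ (d k (s k) ((s k)⁻¹ • g))) =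
    τ c * emb τ (s k) (h k ((s k)⁻¹ • g)) := s1
  have s2' : τ (h k g') * (τ (d k (s k) ((s k)⁻¹ • g')) * cj τ (d k (s k) ((s k)⁻¹ • g'))) =
    τ c * emb τ (s k) (h k ((s k)⁻¹ • g')) := s2
  have key : τ (h k g) / τ (h k g') * cj τ (d k (s k) ((s k)⁻¹ • g)) =
      τ (d k (s k) ((s k)⁻¹ • g')) / τ (d k (s k) ((s k)⁻¹ • g)) *
        (cj τ (d k (s k) ((s k)⁻¹ • g')) *
          (emb τ (s k) (h k ((s k)⁻¹ • g)) / emb τ (s k) (h k ((s k)⁻¹ • g')))) := by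
    have hc0 : τ c ≠ 0 := by
      intro h1
      rw [h1, zero_mul] at s1'
      exact mul_ne_zero m1 (mul_ne_zero n1 c1) s1'
    have s3 := congrArg₂ (· * ·) s1' s2'.symm
    field_simp
    field_simp at s3
    linear_combination s3
  have p1 : (y = ⟨⟨k, g⟩, τ⟩) ↔ jm s y = ⟨⟨k, (s k)⁻¹ • g⟩, emb τ (s k)⟩ := by
    rw [← e1]
    exact (jm_inj s).eq_iff.symm
  have p2 : (y = ⟨⟨k, g'⟩, cj τ⟩) ↔ jm s y = ⟨⟨k, (s k)⁻¹ • g'⟩, cj (emb τ (s k))⟩ := by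
    rw [← e2]
    exact (jm_inj s).eq_iff.symm
  have q1 : (if y = ⟨⟨k, g⟩, τ⟩ then ml d s F ⟨⟨k, g'⟩, τ⟩ else 0) =
      τ (d k (s k) ((s k)⁻¹ • g')) / τ (d k (s k) ((s k)⁻¹ • g)) *
        (jv d s y * if jm s y = ⟨⟨k, (s k)⁻¹ • g⟩, emb τ (s k)⟩ then
          F ⟨⟨k, (s k)⁻¹ • g'⟩, emb τ (s k)⟩ else 0) := by
    by_cases hy : y = ⟨⟨k, g⟩, τ⟩
    · rw [if_pos hy, if_pos (p1.mp hy), hy]
      change τ (d k (s k) ((s k)⁻¹ • g')) * F ⟨⟨k, (s k)⁻¹ • g'⟩, emb τ (s k)⟩ =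
        _ * (τ (d k (s k) ((s k)⁻¹ • g)) * _)
      field_simp
    · rw [if_neg hy, if_neg fun h1 => hy (p1.mpr h1)]
      ring
  have q2 : (τ (h k g) / τ (h k g') * if y = ⟨⟨k, g'⟩, cj τ⟩ then
      ml d s F ⟨⟨k, g⟩, cj τ⟩ else 0) =
      τ (d k (s k) ((s k)⁻¹ • g')) / τ (d k (s k) ((s k)⁻¹ • g)) *
        (jv d s y * (emb τ (s k) (h k ((s k)⁻¹ • g)) / emb τ (s k) (h k ((s k)⁻¹ • g')) *
          if jm s y = ⟨⟨k, (s k)⁻¹ • g'⟩, cj (emb τ (s k))⟩ then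
            F ⟨⟨k, (s k)⁻¹ • g⟩, cj (emb τ (s k))⟩ else 0)) := by
    by_cases hy : y = ⟨⟨k, g'⟩, cj τ⟩
    · rw [if_pos hy, if_pos (p2.mp hy), hy]
      change _ * (cj τ (d k (s k) ((s k)⁻¹ • g)) * F ⟨⟨k, (s k)⁻¹ • g⟩, cj (emb τ (s k))⟩) =
        _ * (cj τ (d k (s k) ((s k)⁻¹ • g')) * _)
      linear_combination F ⟨⟨k, (s k)⁻¹ • g⟩, cj (emb τ (s k))⟩ * key
    · rw [if_neg hy, if_neg fun h1 => hy (p2.mpr h1)]
      ring
  unfold ra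
  rw [q1, q2]
  ring

theorem rg_ml {k : κ} (hd : IsDesc (h k) (d k)) (h0 : ∀ g, h k g ≠ 0) (g g' : G k)
    (τ : K k →+* ℂ) (s : ∀ k, Γ k) (F : LU K G → ℂ) (y : LU K G) :
    rg h d k g g' τ (ml d s F) y = jv d s y * rg h d k g g' τ F (jm s y) := by
  unfold rg
  rw [← Equiv.sum_comp (Equiv.mulLeft (s k)), Finset.mul_sum]
  refine Finset.sum_congr rfl fun δ _ => ?_
  rw [Equiv.coe_mulLeft, ra_ml hd h0]
  have e1 : emb (emb τ (s k * δ)⁻¹) (s k) = emb τ δ⁻¹ := by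
    rw [mul_inv_rev, emb_mul, emb_emb_inv]
  have e2 : ∀ x : G k, (s k)⁻¹ • (s k * δ) • x = δ • x := fun x => by
    rw [mul_smul, inv_smul_smul]
  rw [e1, e2, e2]
  obtain ⟨-, hne, hcoc, -⟩ := hd
  obtain ⟨c, hc⟩ := hcoc (s k) δ
  have s1 := congrArg (emb τ (s k * δ)⁻¹) (hc g)
  have s2 := congrArg (emb τ (s k * δ)⁻¹) (hc g')
  rw [map_mul, map_mul] at s1 s2
  have e3 : ∀ x : K k, emb τ (s k * δ)⁻¹ (s k • x) = emb τ δ⁻¹ x := fun x => by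
    rw [← emb_apply (emb τ (s k * δ)⁻¹) (s k) x, e1]
  rw [e3] at s1 s2
  have n1 : emb τ (s k * δ)⁻¹ (d k (s k) (δ • g)) ≠ 0 := (map_ne_zero _).mpr (hne _ _)
  have n2 : emb τ (s k * δ)⁻¹ (d k (s k) (δ • g')) ≠ 0 := (map_ne_zero _).mpr (hne _ _)
  have n3 : emb τ (s k * δ)⁻¹ (d k (s k * δ) g) ≠ 0 := (map_ne_zero _).mpr (hne _ _)
  have n4 : emb τ (s k * δ)⁻¹ (d k (s k * δ) g') ≠ 0 := (map_ne_zero _).mpr (hne _ _)
  have n5 : emb τ δ⁻¹ (d k δ g) ≠ 0 := (map_ne_zero _).mpr (hne _ _)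
  have n6 : emb τ δ⁻¹ (d k δ g') ≠ 0 := (map_ne_zero _).mpr (hne _ _)
  have key : emb τ (s k * δ)⁻¹ (d k (s k * δ) g) / emb τ (s k * δ)⁻¹ (d k (s k * δ) g') *
      (emb τ (s k * δ)⁻¹ (d k (s k) (δ • g')) / emb τ (s k * δ)⁻¹ (d k (s k) (δ • g))) =
      emb τ δ⁻¹ (d k δ g) / emb τ δ⁻¹ (d k δ g') := by
    have hc0 : emb τ (s k * δ)⁻¹ c ≠ 0 := by
      intro h1
      rw [h1, zero_mul] at s1
      exact mul_ne_zero n1 n5 s1
    rw [div_mul_div_comm, div_eq_div_iff (mul_ne_zero n4 n1) n6]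
    refine mul_left_cancel₀ hc0 ?_
    linear_combination (emb τ (s k * δ)⁻¹ (d k (s k * δ) g) * emb τ (s k * δ)⁻¹ c) * s2 -
      (emb τ (s k * δ)⁻¹ c * emb τ (s k * δ)⁻¹ (d k (s k * δ) g')) * s1
  linear_combination (jv d s y * ra h k (δ • g) (δ • g') (emb τ δ⁻¹) F (jm s y)) * key

end letter

variable {h : ∀ k, G k → K k} {d : ∀ k, Γ k → G k → K k}

theorem mvJ_update (S : T → ∀ k, Γ k) (u : (T → LU K G) → ℂ) (t : T → LU K G) (a : T) :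
    (fun y => mvJ d S u (update t a y)) = fun y => (∏ b ∈ Finset.univ.erase a, jv d (S b) (t b)) *
      ml d (S a) (fun z => u (update (mw S t) a z)) y := by
  funext y
  rw [mvJ_apply, ← Finset.mul_prod_erase _ _ (Finset.mem_univ a), update_self]
  have h1 : ∏ c ∈ Finset.univ.erase a, jv d (S c) (update t a y c) =
      ∏ c ∈ Finset.univ.erase a, jv d (S c) (t c) := by
    refine Finset.prod_congr rfl fun c hc => ?_
    rw [update_of_ne (Finset.ne_of_mem_erase hc)]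
  have h2 : mw S (update t a y) = update (mw S t) a (jm (S a) y) := by
    funext c
    by_cases hc : c = a
    · subst hc
      rw [mw_apply, update_self, update_self]
    · rw [mw_apply, update_of_ne hc, update_of_ne hc, mw_apply]
  rw [h1, h2]
  unfold ml
  ring

/-- The root vectors and the moves commute. -/
theorem rootG_mvJ {k : κ} (hd : IsDesc (h k) (d k)) (h0 : ∀ g, h k g ≠ 0) (g g' : G k)
    (τ : K k →+* ℂ) (S : T → ∀ k, Γ k) (u : (T → LU K G) → ℂ) (t : T → LU K G) :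
    rootG h d k g g' τ (mvJ d S u) t =
      (∏ a, jv d (S a) (t a)) * rootG h d k g g' τ u (mw S t) := by
  rw [rootG_eq, rootG_eq, Finset.mul_sum]
  refine Finset.sum_congr rfl fun a _ => ?_
  rw [mvJ_update, rg_smul, rg_ml hd h0, ← Finset.mul_prod_erase _ _ (Finset.mem_univ a), mw_apply]
  ring

end

end Pool.Agent.UNG.YBx
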