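import Pool.Agent.Lib.UNG.YBA

/-!
# UNG, row YB: patterns and composition of moves
-/

set_option autoImplicit false
set_option linter.unusedSectionVars false

open Function Pool.Agent.HCM Pool.Agent.RAT Pool.Agent.UNIT
open scoped ComplexConjugate

namespace Pool.Agent.UNG.YBx

noncomputable section

variable {κ : Type} {K G Γ : κ → Type} [∀ k, Field (K k)] [∀ k, Group (Γ k)]
  [∀ k, MulSemiringAction (Γ k) (K k)] [∀ k, MulAction (Γ k) (G k)] [∀ k, Fintype (Γ k)]
  {T : Type} [Fintype T] [DecidableEq T]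

/-- The blocks and the embeddings of the letters of a word. -/
def pat (t : T → LU K G) (a : T) : Σ k, (K k →+* ℂ) := ⟨(t a).1.1, (t a).2⟩

open Classical in
/-- The part of `u` of pattern `P`. -/
def res (P : T → Σ k, (K k →+* ℂ)) (u : (T → LU K G) → ℂ) (t : T → LU K G) : ℂ :=
  if pat t = P then u t else 0

theorem res_ne {P : T → Σ k, (K k →+* ℂ)} {u : (T → LU K G) → ℂ} {t : T → LU K G}
    (h1 : res P u t ≠ 0) : pat t = P := by
  by_contra h2
  exact h1 (if_neg h2)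

open Classical in
theorem sum_res [Fintype (Σ k, (K k →+* ℂ))] (u : (T → LU K G) → ℂ) :
    u = ∑ P : T → Σ k, (K k →+* ℂ), res P u := by
  funext t
  rw [Finset.sum_apply, Finset.sum_eq_single (pat t)]
  · exact (if_pos rfl).symm
  · intro P _ hP
    exact if_neg (Ne.symm hP)
  · intro h1
    exact absurd (Finset.mem_univ _) h1

theorem pat_update {t : T → LU K G} {a : T} {k : κ} {g g' : G k} {τ : K k →+* ℂ}
    (h1 : t a = ⟨⟨k, g⟩, τ⟩) : pat (update t a ⟨⟨k, g'⟩, τ⟩) = pat t := by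
  funext c
  by_cases hc : c = a
  · subst hc
    unfold pat
    rw [update_self, h1]
  · unfold pat
    rw [update_of_ne hc]

open Classical in
theorem root_res (h : ∀ k, G k → K k) (P : T → Σ k, (K k →+* ℂ)) (k : κ) (g g' : G k)
    (τ : K k →+* ℂ) (u : (T → LU K G) → ℂ) (t : T → LU K G) :
    root h k g g' τ (res P u) t = if pat t = P then root h k g g' τ u t else 0 := by
  have h1 : ∀ (g g' : G k) (τ : K k →+* ℂ),
      (∑ a, if t a = ⟨⟨k, g⟩, τ⟩ then res P u (update t a ⟨⟨k, g'⟩, τ⟩) else 0) =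
      if pat t = P then ∑ a, (if t a = ⟨⟨k, g⟩, τ⟩ then u (update t a ⟨⟨k, g'⟩, τ⟩) else 0)
        else 0 := by
    intro g g' τ
    by_cases hP : pat t = P
    · rw [if_pos hP]
      refine Finset.sum_congr rfl fun a _ => ?_
      by_cases ha : t a = ⟨⟨k, g⟩, τ⟩
      · rw [if_pos ha, if_pos ha]
        exact if_pos ((pat_update ha).trans hP)
      · rw [if_neg ha, if_neg ha]
    · rw [if_neg hP]
      refine Finset.sum_eq_zero fun a _ => ?_
      by_cases ha : t a = ⟨⟨k, g⟩, τ⟩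
      · rw [if_pos ha]
        exact if_neg fun h2 => hP ((pat_update ha).symm.trans h2)
      · rw [if_neg ha]
  unfold root
  rw [h1, h1]
  by_cases hP : pat t = P
  · simp only [if_pos hP]
  · simp only [if_neg hP, mul_zero, sub_zero]

open Classical in
theorem rootG_res (h : ∀ k, G k → K k) (d : ∀ k, Γ k → G k → K k) (P : T → Σ k, (K k →+* ℂ))
    (k : κ) (g g' : G k) (τ : K k →+* ℂ) (u : (T → LU K G) → ℂ) (t : T → LU K G) :
    rootG h d k g g' τ (res P u) t = if pat t = P then rootG h d k g g' τ u t else 0 := by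
  unfold rootG
  simp only [root_res]
  by_cases hP : pat t = P
  · simp only [if_pos hP]
  · simp only [if_neg hP, mul_zero, Finset.sum_const_zero]

/-- A root vector of an embedding which does not occur. -/
theorem root_none (h : ∀ k, G k → K k) (k : κ) (g g' : G k) (τ : K k →+* ℂ)
    (u : (T → LU K G) → ℂ) (h1 : ∀ t, u t ≠ 0 → ∀ (a : T) (g : G k), t a ≠ ⟨⟨k, g⟩, τ⟩)
    (h2 : ∀ t, u t ≠ 0 → ∀ (a : T) (g : G k), t a ≠ ⟨⟨k, g⟩, cj τ⟩) (t : T → LU K G) :
    root h k g g' τ u t = 0 := by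
  unfold root
  rw [Finset.sum_eq_zero, Finset.sum_eq_zero, mul_zero, sub_zero]
  · intro a _
    by_cases ha : t a = ⟨⟨k, g'⟩, cj τ⟩
    · rw [if_pos ha]
      by_contra h3
      exact h2 _ h3 a g (update_self _ _ _)
    · rw [if_neg ha]
  · intro a _
    by_cases ha : t a = ⟨⟨k, g⟩, τ⟩
    · rw [if_pos ha]
      by_contra h3
      exact h1 _ h3 a g' (update_self _ _ _)
    · rw [if_neg ha]

/-- Composition of two moves, on tensors with one pattern. -/
theorem mvJ_mvJ {d : ∀ k, Γ k → G k → K k} {h : ∀ k, G k → K k} [∀ k, Nonempty (G k)]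
    (hd : ∀ k, IsDesc (h k) (d k)) (P : T → Σ k, (K k →+* ℂ)) (S R : T → ∀ k, Γ k) :
    ∃ C : ℂ, C ≠ 0 ∧ ∀ w : (T → LU K G) → ℂ, (∀ t, w t ≠ 0 → pat t = P) →
      mvJ d S (mvJ d R w) = C • mvJ d (fun a k => S a k * R a k) w := by
  have h1 : ∀ (k : κ) (γ δ : Γ k), ∃ c : K k, ∀ g,
      d k γ (δ • g) * γ • d k δ g = c * d k (γ * δ) g := fun k => (hd k).2.2.1
  choose c hc using h1
  have hc0 : ∀ (k : κ) (γ δ : Γ k), c k γ δ ≠ 0 := by
    intro k γ δ h2
    obtain ⟨g⟩ := (inferInstance : Nonempty (G k))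
    have h3 := hc k γ δ g
    rw [h2, zero_mul] at h3
    have h4 := (hd k).2.1
    exact mul_ne_zero (h4 _ _) (fun h5 => h4 δ g (by
      have h6 := congrArg (fun x => γ⁻¹ • x) h5
      simpa using h6)) h3
  refine ⟨∏ a, emb (P a).2 (S a (P a).1 * R a (P a).1)⁻¹ (c (P a).1 (S a (P a).1) (R a (P a).1)),
    Finset.prod_ne_zero_iff.mpr fun a _ => (map_ne_zero _).mpr (hc0 _ _ _), fun w hw => ?_⟩
  funext t
  rw [Pi.smul_apply, smul_eq_mul, mvJ_apply, mvJ_apply, mvJ_apply]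
  have h2 : mw R (mw S t) = mw (fun a k => S a k * R a k) t := by
    funext a
    rw [mw_apply, mw_apply, mw_apply, jm_jm]
  rw [h2]
  by_cases h3 : w (mw (fun a k => S a k * R a k) t) = 0
  · rw [h3]
    ring
  · have h4 := hw _ h3
    have h5 : (∏ a, jv d (S a) (t a)) * (∏ a, jv d (R a) (mw S t a)) =
        (∏ a, emb (P a).2 (S a (P a).1 * R a (P a).1)⁻¹
          (c (P a).1 (S a (P a).1) (R a (P a).1))) *
        ∏ a, jv d (fun k => S a k * R a k) (t a) := by
      rw [← Finset.prod_mul_distrib, ← Finset.prod_mul_distrib]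
      refine Finset.prod_congr rfl fun a _ => ?_
      have h6 := congrFun h4 a
      rw [mw_apply]
      unfold pat at h6
      rw [mw_apply] at h6
      generalize t a = y at h6
      obtain ⟨⟨k, g⟩, τ⟩ := y
      rw [jm_mk] at h6
      rw [← h6]
      change τ (d k (S a k) ((S a k)⁻¹ • g)) *
        τ (S a k • d k (R a k) ((R a k)⁻¹ • (S a k)⁻¹ • g)) =
        emb (emb τ (S a k * R a k)) (S a k * R a k)⁻¹ (c k (S a k) (R a k)) *
          τ (d k (S a k * R a k) ((S a k * R a k)⁻¹ • g))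
      rw [emb_inv_emb, ← map_mul, ← map_mul]
      have h7 := hc k (S a k) (R a k) ((S a k * R a k)⁻¹ • g)
      rw [← h7]
      have h8 : R a k • (S a k * R a k)⁻¹ • g = (S a k)⁻¹ • g := by
        rw [mul_inv_rev, mul_smul, smul_inv_smul]
      have h9 : (R a k)⁻¹ • (S a k)⁻¹ • g = (S a k * R a k)⁻¹ • g := by
        rw [mul_inv_rev, mul_smul]
      rw [h8, h9]
    rw [← mul_assoc, h5]
    ring

/-- A product of pairings and determinants has one pattern. -/
theorem bt_pat [∀ k, Fintype (G k)] {h : ∀ k, G k → K k} {w : (T → LU K G) → ℂ}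
    (hw : IsBT h w) {t t' : T → LU K G} (h1 : w t ≠ 0) (h2 : w t' ≠ 0) : pat t = pat t' := by
  obtain ⟨n, r, pk, pτ, blk, τ, e, rfl⟩ := hw
  have h3 := left_ne_zero_of_mul h1
  have h4 := right_ne_zero_of_mul h1
  have h5 := left_ne_zero_of_mul h2
  have h6 := right_ne_zero_of_mul h2
  rw [Finset.prod_ne_zero_iff] at h3 h4 h5 h6
  funext a
  obtain ⟨z, rfl⟩ := e.surjective a
  rcases z with ⟨i, ε⟩ | ⟨l, g⟩
  · obtain ⟨g, h7, h8⟩ := UNQ.VB.pc_ne h (h3 i (Finset.mem_univ i))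
    obtain ⟨g', h9, h10⟩ := UNQ.VB.pc_ne h (h5 i (Finset.mem_univ i))
    fin_cases ε
    · change (⟨(t (e (Sum.inl (i, 0)))).1.1, (t (e (Sum.inl (i, 0)))).2⟩ : Σ k, (K k →+* ℂ)) =
        ⟨(t' (e (Sum.inl (i, 0)))).1.1, (t' (e (Sum.inl (i, 0)))).2⟩
      rw [h7, h9]
    · change (⟨(t (e (Sum.inl (i, 1)))).1.1, (t (e (Sum.inl (i, 1)))).2⟩ : Σ k, (K k →+* ℂ)) =
        ⟨(t' (e (Sum.inl (i, 1)))).1.1, (t' (e (Sum.inl (i, 1)))).2⟩
      rw [h8, h10]
  · obtain ⟨π, h7⟩ := UNQ.VB.dc_ne (h4 l (Finset.mem_univ l))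
    obtain ⟨π', h8⟩ := UNQ.VB.dc_ne (h6 l (Finset.mem_univ l))
    have h9 := congrFun h7 g
    have h10 := congrFun h8 g
    unfold pat
    rw [h9, h10]

end

end Pool.Agent.UNG.YBx
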