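import Pool.Agent.Lib.UNG.YBB
import Pool.Agent.Lib.UNG.Quat

/-!
# UNG, row YB: representatives, and the moves of `UNQ`
-/

set_option autoImplicit false
set_option linter.unusedSectionVars false

open Function Pool.Agent.HCM Pool.Agent.RAT Pool.Agent.UNIT
open scoped ComplexConjugate

namespace Pool.Agent.UNG.YBx

noncomputable section

/-- Representatives of the orbits of embeddings, up to complex conjugation. -/
theorem exists_rep {F Γ : Type} [Field F] [Group Γ] [MulSemiringAction Γ F] [FaithfulSMul Γ F] :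
    ∃ R : Set (F →+* ℂ), (∀ τ ∈ R, cj τ ∈ R) ∧ (∀ τ, ∃ γ : Γ, emb τ γ ∈ R) ∧
      ∀ τ ∈ R, ∀ γ : Γ, emb τ γ ∈ R → γ = 1 ∨ emb τ γ = cj τ := by
  let s : Setoid (F →+* ℂ) :=
    { r := fun τ τ' => ∃ γ : Γ, emb τ γ = τ' ∨ emb τ γ = cj τ'
      iseqv := by
        refine ⟨fun τ => ⟨1, Or.inl (emb_one τ)⟩, ?_, ?_⟩
        · rintro τ τ' ⟨γ, h1 | h1⟩
          · exact ⟨γ⁻¹, Or.inl (by rw [← h1, emb_inv_emb])⟩
          · refine ⟨γ⁻¹, Or.inr ?_⟩
            have h2 : emb (cj τ') γ⁻¹ = τ := by rw [← h1, emb_inv_emb]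
            rw [emb_cj] at h2
            rw [← h2, UBx.cj_cj']
        · rintro τ τ' τ'' ⟨γ, h1 | h1⟩ ⟨δ, h2 | h2⟩
          · exact ⟨γ * δ, Or.inl (by rw [emb_mul, h1, h2])⟩
          · exact ⟨γ * δ, Or.inr (by rw [emb_mul, h1, h2])⟩
          · exact ⟨γ * δ, Or.inr (by rw [emb_mul, h1, emb_cj, h2])⟩
          · exact ⟨γ * δ, Or.inl (by rw [emb_mul, h1, emb_cj, h2, UBx.cj_cj'])⟩ }
  let rep : (F →+* ℂ) → (F →+* ℂ) := fun τ => (Quotient.mk s τ).out
  have hrep : ∀ τ τ' : F →+* ℂ, s τ τ' → rep τ = rep τ' := fun τ τ' h1 =>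
    congrArg Quotient.out (Quotient.sound h1)
  have hout : ∀ τ, s τ (rep τ) := fun τ => s.symm (Quotient.mk_out τ)
  have hcj : ∀ τ, rep (cj τ) = rep τ := fun τ => hrep _ _ ⟨1, Or.inr (emb_one _)⟩
  have hem : ∀ τ (γ : Γ), rep (emb τ γ) = rep τ := fun τ γ =>
    (hrep _ _ ⟨γ, Or.inl rfl⟩).symm
  refine ⟨{τ | τ = rep τ ∨ τ = cj (rep τ)}, ?_, ?_, ?_⟩
  · rintro τ (h1 | h1)
    · right
      rw [hcj, ← h1]
    · left
      rw [hcj]
      conv_lhs => rw [h1]
      exact UBx.cj_cj' _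
  · intro τ
    obtain ⟨γ, h1⟩ := hout τ
    refine ⟨γ, ?_⟩
    rcases h1 with h1 | h1
    · left
      rw [hem]
      exact h1
    · right
      rw [hem]
      exact h1
  · intro τ h1 γ h2
    change emb τ γ = rep (emb τ γ) ∨ emb τ γ = cj (rep (emb τ γ)) at h2
    rw [hem] at h2
    have h4 : emb τ γ = τ → γ = 1 := fun h3 =>
      emb_injective τ (h3.trans (emb_one τ).symm)
    rcases h1 with h1 | h1
    · rw [← h1] at h2
      rcases h2 with h2 | h2
      · exact Or.inl (h4 h2)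
      · exact Or.inr h2
    · have h3 : rep τ = cj τ := by
        conv_rhs => rw [h1]
        exact (UBx.cj_cj' _).symm
      rw [h3, UBx.cj_cj'] at h2
      rcases h2 with h2 | h2
      · exact Or.inr h2
      · exact Or.inl (h4 h2)

theorem emb_conj {F Γ : Type} [Field F] [NumberField F] [NumberField.IsCMField F] [Group Γ]
    [MulSemiringAction Γ F] {τ : F →+* ℂ} {γ : Γ} (h1 : emb τ γ = cj τ) (τ' : F →+* ℂ) :
    emb τ' γ = cj τ' := by
  have h2 : ∀ x : F, γ • x = NumberField.IsCMField.complexConj F x := by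
    intro x
    apply τ.injective
    rw [NumberField.IsCMField.complexEmbedding_complexConj]
    exact RingHom.congr_fun h1 x
  ext x
  rw [emb_apply, h2, NumberField.IsCMField.complexEmbedding_complexConj]
  rfl

variable {κ : Type} {K G Γ : κ → Type} [∀ k, Field (K k)] [∀ k, Group (Γ k)]
  [∀ k, MulSemiringAction (Γ k) (K k)] [∀ k, MulAction (Γ k) (G k)] [∀ k, Fintype (Γ k)]
  {T : Type} [Fintype T] [DecidableEq T]

section

variable (c : ∀ k, Γ k)

open Classical in
/-- The permutation of `UNQ`. -/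
def qq (k : κ) (g : G k) : G k := if HasConj K Γ k then c k • g else g

open Classical in
/-- The weights of `UNQ`. -/
def dd (d : ∀ k, Γ k → G k → K k) (k : κ) (g : G k) : K k :=
  if HasConj K Γ k then d k (c k) g else 0

theorem qq_pos {k : κ} (h1 : HasConj K Γ k) : qq (K := K) (G := G) c k = fun g => c k • g := by
  funext g
  exact if_pos h1

theorem dd_pos {d : ∀ k, Γ k → G k → K k} {k : κ} (h1 : HasConj K Γ k) :
    dd c d k = d k (c k) := by
  funext g
  exact if_pos h1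

theorem dd_neg {d : ∀ k, Γ k → G k → K k} {k : κ} (h1 : ¬ HasConj K Γ k) :
    dd c d k = 0 := by
  funext g
  exact if_neg h1

variable {c} {d : ∀ k, Γ k → G k → K k}

open Classical in
/-- The moves of `UNQ` are moves of `UNG`. -/
theorem mvQ (hc : ∀ k, HasConj K Γ k → ∀ τ : K k →+* ℂ, emb τ (c k) = cj τ)
    (hcc : ∀ k, HasConj K Γ k → (c k)⁻¹ = c k) (hd : ∀ k g, d k 1 g = 1) (S : Finset T)
    (w : (T → LU K G) → ℂ) (hw : ∀ t t', w t ≠ 0 → w t' ≠ 0 → pat t = pat t') :
    UNQ.mvJ (qq (K := K) c) (dd c d) S w = 0 ∨ ∃ S' : T → ∀ k, Γ k,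
      UNQ.mvJ (qq (K := K) c) (dd c d) S w = mvJ d S' w := by
  have hz : ∀ y : LU K G, ¬ HasConj K Γ y.1.1 → UNQ.jv (qq (K := K) c) (dd c d) y = 0 := by
    rintro ⟨⟨k, g⟩, τ⟩ hk
    rw [UNQ.jv_mk, dd_neg c hk, Pi.zero_apply, map_zero]
  by_cases hA : ∀ t, w t ≠ 0 → ∀ a ∈ S, HasConj K Γ (t a).1.1
  · right
    refine ⟨fun a k => if a ∈ S ∧ HasConj K Γ k then c k else 1, ?_⟩
    funext t
    rw [UNQ.mvJ_apply, mvJ_apply]
    by_cases ht : ∀ a ∈ S, HasConj K Γ (t a).1.1
    · have h1 : UNQ.mw (qq (K := K) c) S t =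
          mw (fun a k => if a ∈ S ∧ HasConj K Γ k then c k else 1) t := by
        funext a
        rw [mw_apply]
        unfold UNQ.mw
        by_cases ha : a ∈ S
        · rw [if_pos ha]
          have h2 := ht a ha
          generalize t a = y at h2
          obtain ⟨⟨k, g⟩, τ⟩ := y
          change HasConj K Γ k at h2
          rw [UNQ.jm_mk, jm_mk, if_pos ⟨ha, h2⟩, qq_pos c h2]
          exact lu_ext (by rw [hcc k h2]) (hc k h2 τ).symm
        · rw [if_neg ha]
          generalize t a = y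
          obtain ⟨⟨k, g⟩, τ⟩ := y
          rw [jm_mk, if_neg fun h2 => ha h2.1]
          exact lu_ext (by rw [inv_one, one_smul]) (emb_one τ).symm
      rw [h1]
      congr 1
      have h5 : (∏ a ∈ S, UNQ.jv (qq (K := K) c) (dd c d) (t a)) =
          ∏ a, if a ∈ S then UNQ.jv (qq (K := K) c) (dd c d) (t a) else 1 := by
        rw [Finset.prod_ite_mem, Finset.univ_inter]
      rw [h5]
      refine Finset.prod_congr rfl fun a _ => ?_
      by_cases ha : a ∈ S
      · rw [if_pos ha]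
        have h2 := ht a ha
        generalize t a = y at h2
        obtain ⟨⟨k, g⟩, τ⟩ := y
        change HasConj K Γ k at h2
        rw [UNQ.jv_mk, jv_mk, if_pos ⟨ha, h2⟩, qq_pos c h2, dd_pos c h2, hcc k h2]
      · rw [if_neg ha]
        generalize t a = y
        obtain ⟨⟨k, g⟩, τ⟩ := y
        rw [jv_mk, if_neg fun h2 => ha h2.1, hd, map_one]
    · push Not at ht
      obtain ⟨a, ha, h1⟩ := ht
      rw [Finset.prod_eq_zero ha (hz _ h1), zero_mul]
      have h2 : w (mw (fun a k => if a ∈ S ∧ HasConj K Γ k then c k else 1) t) = 0 := by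
        by_contra h3
        exact h1 (hA _ h3 a ha)
      rw [h2, mul_zero]
  · left
    push Not at hA
    obtain ⟨t₀, h0, a, ha, h1⟩ := hA
    funext t
    rw [UNQ.mvJ_apply, Pi.zero_apply]
    by_cases h2 : w (UNQ.mw (qq (K := K) c) S t) = 0
    · rw [h2, mul_zero]
    · have h3 := congrFun (hw _ _ h2 h0) a
      have h4 : (UNQ.mw (qq (K := K) c) S t a).1.1 = (t₀ a).1.1 := congrArg (fun z => z.1) h3
      have h5 : (UNQ.mw (qq (K := K) c) S t a).1.1 = (t a).1.1 := by
        unfold UNQ.mw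
        rw [if_pos ha]
        generalize t a = y
        obtain ⟨⟨k, g⟩, τ⟩ := y
        rfl
      have h6 : ¬ HasConj K Γ (t a).1.1 := by
        rw [← h5, h4]
        exact h1
      rw [Finset.prod_eq_zero ha (hz _ h6), zero_mul]

end

end

end Pool.Agent.UNG.YBx
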